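import Pool.Agent.N53.RO.Main

/-!
# Local criteria for rank one isometries
-/

set_option autoImplicit false

universe u v

open Metric Set Filter Topology
open Pool.Agent.TH60.FP Pool.Agent.Y34.HB Pool.Agent.Y34.EL

namespace Pool.Agent.N53.RO

variable {X : Type u} [MetricSpace X]

/-- two rays from one point: the distance increases -/
lemma ray_mono [ProperSpace X] (hX : CN X) {p : X} {c c' : ℝ → X} (hc : Ray p c) (hc' : Ray p c')
    {t T : ℝ} (ht : 0 ≤ t) (htT : t ≤ T) : dist (c t) (c' t) ≤ dist (c T) (c' T) := by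
  rcases (ht.trans htT).eq_or_lt with h0 | h0
  · have : t = T := by linarith
    rw [this]
  have h1 := (t_cmp X hX).2 p (c T) p (c' T) (t / T) (c t) (c' t)
    (by rw [ray_dist hc h0.le, div_mul_cancel₀ _ h0.ne']; exact on_ray hc ht htT)
    (by rw [ray_dist hc' h0.le, div_mul_cancel₀ _ h0.ne']; exact on_ray hc' ht htT)
    (by positivity) ((div_le_one h0).2 htT)
  rw [dist_self, mul_zero, zero_add] at h1
  refine h1.trans ?_
  have h2 : t / T ≤ 1 := (div_le_one h0).2 htT
  calc t / T * dist (c T) (c' T) ≤ 1 * dist (c T) (c' T) :=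
        mul_le_mul_of_nonneg_right h2 dist_nonneg
    _ = _ := one_mul _

variable {G : Type v} [Group G] [MulAction G X]

/-- the closure of every orbit at infinity contains a point such that all lines which end there
bound half-planes -/
theorem main (hG : Geo X G) (hno : ∀ g : G, ¬ RankOne X g) {x : X} {c₀ : ℝ → X} (hc₀ : Ray x c₀) :
    ∃ c : ℝ → X, Ray x c ∧
      (∀ T ε : ℝ, 0 < ε → ∃ (g : G) (c' : ℝ → X), Ray x c' ∧ Asy c' (fun t => g • c₀ t) ∧
        ∀ t : ℝ, 0 ≤ t → t ≤ T → dist (c t) (c' t) ≤ ε) ∧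
      ∀ (g : G) (σ : ℝ → X), Isometry σ → Asy (fun t => σ (-t)) (fun t => g • c t) →
        (HP σ).Nonempty := by
  have := hG.proper
  have := hG.isom
  have hX := hG.cn
  obtain ⟨c1, h1, h2⟩ := bd_norm hc₀
  have hI := orb_inv (G := G) hX h1
  obtain ⟨M, h3, hM, hmin⟩ := exists_minimal hI
  obtain ⟨c, hc⟩ := hM.ne
  refine ⟨c, (hM.sub hc).1, ?_, ?_⟩
  · intro T ε hε
    have hop : IsOpen {d : ℝ → X | dist (d |T|) (c |T|) < ε} :=
      isOpen_lt ((continuous_apply |T|).dist continuous_const) continuous_const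
    obtain ⟨c', h4, h5, g, h6⟩ := mem_closure_iff.1 (h3 hc) _ hop (by simpa using hε)
    refine ⟨g, c', h5.1, ?_, ?_⟩
    · obtain ⟨K, hK⟩ := h6
      refine ⟨K, fun t ht => ?_⟩
      show dist (c' t) (g • c₀ t) ≤ K
      rw [← h2 t ht]
      exact hK t ht
    · intro t ht htT
      have h7 : dist (c' |T|) (c |T|) < ε := h4
      rw [dist_comm] at h7
      exact (ray_mono hX (hM.sub hc).1 h5.1 ht (htT.trans (le_abs_self T))).trans h7.le
  · intro g σ hσ hσc
    obtain ⟨c', h4, h5⟩ := bd_exists hX x (ray_smul g (hM.sub hc).1)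
    exact half_plane hG hno hM hmin (hM.inv c hc g c' h4 h5) hσ (hσc.trans h5.symm)

/-- a geodesic which is straight at one point is straight -/
lemma straight [ProperSpace X] (hX : CN X) {x b : X} {c : ℝ → X} (hc : Ray x c) {R : ℝ}
    (hR : 0 < R) (hxb : dist x b = R) (hb : dist (c R) b = 2 * R) {t : ℝ} (ht : 0 ≤ t) :
    dist (c t) b = t + R := by
  apply le_antisymm
  · have h1 := dist_triangle (c t) x b
    rw [dist_comm (c t) x, ray_dist hc ht, hxb] at h1
    exact h1
  · rcases le_total t R with htR | htR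
    · have h1 := dist_triangle (c R) (c t) b
      rw [hb, hc.2 R t hR.le ht, abs_of_nonneg (by linarith)] at h1
      linarith
    · have h1 := (t_cmp X hX).1 x (c t) b R (c R) b (on_ray hc hR.le htR)
        ⟨hxb, by rw [dist_self, hxb, sub_self]⟩
      rw [ray_dist hc ht, hxb, hb] at h1
      have h2 : (2 * R) ^ 2 * (t * R) = R ^ 2 * (4 * (t * R)) := by ring
      rw [h2] at h1
      have h3 := le_of_mul_le_mul_left h1 (by positivity)
      have h4 : (t + R) ^ 2 ≤ dist (c t) b ^ 2 := by nlinarith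
      exact abs_le_of_sq_le_sq' h4 dist_nonneg |>.2

/-- the half-disc with given diameter -/
theorem half_disc (hG : Geo X G) (hGC : GC X) {x b : X} {c : ℝ → X} (hc : Ray x c)
    (hall : ∀ (σ : ℝ → X), Isometry σ → Asy (fun t => σ (-t)) c → (HP σ).Nonempty)
    {R : ℝ} (hR : 0 < R) (hxb : dist x b = R) (hb : dist (c R) b = 2 * R) :
    ∃ σ : ℝ → X, Isometry σ ∧ (∀ t : ℝ, 0 ≤ t → σ (-t) = c t) ∧ σ R = b ∧ (HP σ).Nonempty := by
  have := hG.proper
  have hX := hG.cn
  obtain ⟨σ, h1, h2, h3⟩ := extend hX hGC hc hR.le hxb fun t ht => straight hX hc hR hxb hb ht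
  refine ⟨σ, h1, h2, h3, hall σ h1 ⟨0, fun t ht => ?_⟩⟩
  show dist (σ (-t)) (c t) ≤ 0
  rw [h2 t ht, dist_self]

/-- rays from every point of a geodesically complete space with two points -/
lemma exists_ray (hGC : GC X) (hne : ∃ p q : X, p ≠ q) (x : X) : ∃ c : ℝ → X, Ray x c := by
  obtain ⟨p, q, hpq⟩ := hne
  obtain ⟨y, hy⟩ : ∃ y, x ≠ y := by
    by_cases h : x = p
    · exact ⟨q, by rw [h]; exact hpq⟩
    · exact ⟨p, h⟩
  obtain ⟨c, h1, h2, -⟩ := hGC x y hy
  exact ⟨c, h2, fun s t _ _ => by rw [h1.dist_eq, Real.dist_eq]⟩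

end Pool.Agent.N53.RO
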