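import Pool.Agent.Y34.EL.All

/-!
# The boundary as the space of rays from a point; minimal invariant sets

`X` is a proper CAT(0) space (`CN X`), `G` acts by isometries.  The rays from `o` form the compact
space `Bd o`; `act g` is the action of `g` on it, and every closed invariant set contains a minimal
one.
-/

set_option autoImplicit false

universe u v

open Metric Set Filter Topology
open Pool.Agent.TH60.FP Pool.Agent.Y34.HB Pool.Agent.Y34.EL

namespace Pool.Agent.N53.RO

variable {X : Type u} [MetricSpace X]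

/-- rays at bounded distance -/
def Asy (c c' : ℝ → X) : Prop := ∃ K : ℝ, ∀ t : ℝ, 0 ≤ t → dist (c t) (c' t) ≤ K

lemma Asy.symm {c c' : ℝ → X} (h : Asy c c') : Asy c' c := by
  obtain ⟨K, h⟩ := h
  exact ⟨K, fun t ht => by rw [dist_comm]; exact h t ht⟩

lemma Asy.trans {c c' c'' : ℝ → X} (h : Asy c c') (h' : Asy c' c'') : Asy c c'' := by
  obtain ⟨K, h⟩ := h
  obtain ⟨K', h'⟩ := h'
  exact ⟨K + K', fun t ht => (dist_triangle _ _ _).trans (add_le_add (h t ht) (h' t ht))⟩

lemma Asy.smul {G : Type v} [Group G] [MulAction G X] [IsIsometricSMul G X] {c c' : ℝ → X}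
    (h : Asy c c') (g : G) : Asy (fun t => g • c t) (fun t => g • c' t) := by
  obtain ⟨K, h⟩ := h
  exact ⟨K, fun t ht => by rw [dist_smul]; exact h t ht⟩

lemma ray_dist {o : X} {c : ℝ → X} (hc : Ray o c) {t : ℝ} (ht : 0 ≤ t) : dist o (c t) = t :=
  Pool.Agent.Y73.EL.ray_dist hc ht

lemma on_ray {o : X} {c : ℝ → X} (hc : Ray o c) {t s : ℝ} (ht : 0 ≤ t) (hts : t ≤ s) :
    On o (c s) t (c t) := Pool.Agent.Y73.EL.on_ray hc ht hts

/-- the distance of asymptotic rays is largest at the origins -/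
lemma asy_le [ProperSpace X] (hX : CN X) {p q : X} {c c' : ℝ → X} (hc : Ray p c) (hc' : Ray q c')
    (h : Asy c c') {t : ℝ} (ht : 0 ≤ t) : dist (c t) (c' t) ≤ dist p q := by
  obtain ⟨K, hK⟩ := h
  have hK0 : 0 ≤ K := dist_nonneg.trans (hK 0 le_rfl)
  refine le_of_forall_pos_le_add fun ε hε => ?_
  obtain ⟨T, hT⟩ : ∃ T : ℝ, T = t + t * K / ε + 1 := ⟨_, rfl⟩
  have h0 : 0 ≤ t * K / ε := by positivity
  have hT0 : 0 < T := by linarith
  have htT : t ≤ T := by linarith
  obtain ⟨l, hl⟩ : ∃ l, l = t / T := ⟨_, rfl⟩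
  have hlT : l * T = t := by rw [hl, div_mul_cancel₀ _ hT0.ne']
  have hl0 : 0 ≤ l := by rw [hl]; positivity
  have hl1 : l ≤ 1 := by rw [hl, div_le_one hT0]; exact htT
  have h1 := (t_cmp X hX).2 p (c T) q (c' T) l (c t) (c' t)
    (by rw [ray_dist hc hT0.le, hlT]; exact on_ray hc ht htT)
    (by rw [ray_dist hc' hT0.le, hlT]; exact on_ray hc' ht htT) hl0 hl1
  have h2 : l * dist (c T) (c' T) ≤ l * K := mul_le_mul_of_nonneg_left (hK T hT0.le) hl0
  have h3 : (1 - l) * dist p q ≤ dist p q := by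
    have : 0 ≤ l * dist p q := mul_nonneg hl0 dist_nonneg
    linarith
  have h4 : l * K ≤ ε := by
    rw [hl, div_mul_eq_mul_div, div_le_iff₀ hT0]
    have h5 : t * K / ε ≤ T := by linarith
    rw [div_le_iff₀ hε] at h5
    linarith
  linarith

lemma asy_eq [ProperSpace X] (hX : CN X) {p : X} {c c' : ℝ → X} (hc : Ray p c) (hc' : Ray p c')
    (h : Asy c c') {t : ℝ} (ht : 0 ≤ t) : c t = c' t := by
  have := asy_le hX hc hc' h ht
  rw [dist_self] at this
  exact dist_le_zero.1 this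

/-- a ray with given origin asymptotic to a given ray -/
lemma asy_exists [ProperSpace X] (hX : CN X) (p : X) {q : X} {c : ℝ → X} (hc : Ray q c) :
    ∃ c' : ℝ → X, Ray p c' ∧ Asy c' c := by
  have htd : ∀ n : ℕ, (n : ℝ) - dist p q ≤ dist p (c n) := by
    intro n
    have h := dist_triangle q p (c n)
    rw [ray_dist hc (Nat.cast_nonneg n), dist_comm q p] at h
    linarith
  obtain ⟨η, hη, hη'⟩ := t_lray X hX p (fun n : ℕ => c n) (Pool.Agent.Y73.EL.tend htd)
  refine ⟨η, hη, 2 * dist p q + 1, fun t ht => ?_⟩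
  have h1 : ∀ᶠ n : ℕ in (hyperfilter ℕ : Filter ℕ), t + dist p q + 1 ≤ (n : ℝ) :=
    Nat.hyperfilter_le_atTop (tendsto_natCast_atTop_atTop.eventually_ge_atTop _)
  obtain ⟨n, hn, hn'⟩ := (h1.and (hη' t 1 ht one_pos)).exists
  have hn0 : (0 : ℝ) ≤ n := Nat.cast_nonneg n
  have hd1 := htd n
  have hd2 := dist_triangle p q (c n)
  rw [ray_dist hc hn0] at hd2
  have hpq : 0 ≤ dist p q := dist_nonneg
  have hd : 0 < dist p (c n) := by linarith
  obtain ⟨y, hy⟩ := (t_stew X hX).1 p (c n) t ht (by linarith)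
  have h2 := hn' y hy
  obtain ⟨l, hl⟩ : ∃ l, l = t / dist p (c n) := ⟨_, rfl⟩
  have hlT : l * dist p (c n) = t := by rw [hl, div_mul_cancel₀ _ hd.ne']
  have hl0 : 0 ≤ l := by rw [hl]; positivity
  have hl1 : l ≤ 1 := by rw [hl, div_le_one hd]; linarith
  have h3 := (t_cmp X hX).2 p (c n) q (c n) l y (c (l * n))
    (by rw [hlT]; exact hy)
    (by
      rw [ray_dist hc hn0]
      exact on_ray hc (mul_nonneg hl0 hn0) (by nlinarith)) hl0 hl1
  rw [dist_self, mul_zero, add_zero] at h3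
  have h4 : dist (c (l * n)) (c t) ≤ dist p q := by
    rw [hc.2 _ _ (mul_nonneg hl0 hn0) ht]
    have e : l * n - t = l * (n - dist p (c n)) := by rw [mul_sub, hlT]
    rw [e, abs_mul, abs_of_nonneg hl0]
    have h5 : |(n : ℝ) - dist p (c n)| ≤ dist p q := abs_le.2 ⟨by linarith, by linarith⟩
    calc l * |(n : ℝ) - dist p (c n)| ≤ 1 * |(n : ℝ) - dist p (c n)| :=
          mul_le_mul_of_nonneg_right hl1 (abs_nonneg _)
      _ ≤ dist p q := by rw [one_mul]; exact h5
  have h6 : (1 - l) * dist p q ≤ dist p q := by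
    have : 0 ≤ l * dist p q := mul_nonneg hl0 hpq
    linarith
  have h7 := dist_triangle (η t) y (c t)
  have h8 := dist_triangle y (c (l * n)) (c t)
  rw [dist_comm (η t) y] at h7
  linarith

/-! ### the space of rays -/

/-- the rays from `o`, normalised by the value `o` at negative times -/
def Bd (o : X) : Set (ℝ → X) := {c | Ray o c ∧ ∀ t < 0, c t = o}

lemma bd_compact [ProperSpace X] (o : X) : IsCompact (Bd o) := by
  have h1 : IsCompact (Set.pi univ fun t : ℝ => closedBall o |t|) :=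
    isCompact_univ_pi fun t => isCompact_closedBall _ _
  refine h1.of_isClosed_subset ?_ ?_
  · have e : Bd o = ({c : ℝ → X | c 0 = o} ∩
        (⋂ s : ℝ, ⋂ t : ℝ, ⋂ _ : 0 ≤ s, ⋂ _ : 0 ≤ t, {c : ℝ → X | dist (c s) (c t) = |s - t|})) ∩
        ⋂ t : ℝ, ⋂ _ : t < 0, {c : ℝ → X | c t = o} := by
      ext c
      simp [Bd, Ray]
    rw [e]
    refine (IsClosed.inter (isClosed_eq (continuous_apply _) continuous_const) ?_).inter ?_
    · refine isClosed_iInter fun s => isClosed_iInter fun t => isClosed_iInter fun _ =>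
        isClosed_iInter fun _ => isClosed_eq ?_ continuous_const
      exact (continuous_apply s).dist (continuous_apply t)
    · exact isClosed_iInter fun t => isClosed_iInter fun _ =>
        isClosed_eq (continuous_apply _) continuous_const
  · intro c hc
    rw [Set.mem_univ_pi]
    intro t
    rw [mem_closedBall, dist_comm]
    rcases lt_or_ge t 0 with h | h
    · rw [hc.2 t h, dist_self]
      exact abs_nonneg _
    · rw [ray_dist hc.1 h]
      exact le_abs_self t

lemma bd_ext [ProperSpace X] (hX : CN X) {o : X} {c c' : ℝ → X} (hc : c ∈ Bd o) (hc' : c' ∈ Bd o)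
    (h : Asy c c') : c = c' := by
  funext t
  rcases lt_or_ge t 0 with ht | ht
  · rw [hc.2 t ht, hc'.2 t ht]
  · exact asy_eq hX hc.1 hc'.1 h ht

/-- normalisation -/
lemma bd_norm {o : X} {c : ℝ → X} (hc : Ray o c) : ∃ c' ∈ Bd o, ∀ t : ℝ, 0 ≤ t → c' t = c t := by
  classical
  refine ⟨fun t => if 0 ≤ t then c t else o, ⟨⟨?_, ?_⟩, ?_⟩, ?_⟩
  · simp [hc.1]
  · intro s t hs ht
    simp only [hs, ht, if_true]
    exact hc.2 s t hs ht
  · intro t ht
    simp [not_le.2 ht]
  · intro t ht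
    simp [ht]

lemma bd_exists [ProperSpace X] (hX : CN X) (p : X) {q : X} {c : ℝ → X} (hc : Ray q c) :
    ∃ c' ∈ Bd p, Asy c' c := by
  obtain ⟨c1, h1, K, hK⟩ := asy_exists hX p hc
  obtain ⟨c2, h2, h3⟩ := bd_norm h1
  exact ⟨c2, h2, K, fun t ht => by rw [h3 t ht]; exact hK t ht⟩

section action

variable {G : Type v} [Group G] [MulAction G X] [IsIsometricSMul G X]

lemma ray_smul (g : G) {o : X} {c : ℝ → X} (hc : Ray o c) : Ray (g • o) (fun t => g • c t) :=
  ⟨by show g • c 0 = g • o; rw [hc.1], fun s t hs ht => by rw [dist_smul]; exact hc.2 s t hs ht⟩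

/-- the action on `Bd o` -/
lemma act_exists [ProperSpace X] (hX : CN X) (o : X) (g : G) (c : ℝ → X) :
    ∃ c' : ℝ → X, c ∈ Bd o → c' ∈ Bd o ∧ Asy c' (fun t => g • c t) := by
  by_cases h : c ∈ Bd o
  · obtain ⟨c', h1, h2⟩ := bd_exists hX o (ray_smul g h.1)
    exact ⟨c', fun _ => ⟨h1, h2⟩⟩
  · exact ⟨c, fun h' => absurd h' h⟩

/-- continuity of the action -/
lemma act_tendsto [ProperSpace X] (hX : CN X) {o : X} (g : G) {ι : Type*} (l : Ultrafilter ι)
    {e e' : ι → ℝ → X} {d d' : ℝ → X} (hd : d ∈ Bd o) (hd' : d' ∈ Bd o)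
    (hdd : Asy d' (fun t => g • d t))
    (he : ∀ᶠ i in (l : Filter ι), e i ∈ Bd o ∧ e' i ∈ Bd o ∧ Asy (e' i) (fun t => g • e i t))
    (hl : Tendsto e (l : Filter ι) (𝓝 d)) : Tendsto e' (l : Filter ι) (𝓝 d') := by
  obtain ⟨d'', h1, h2⟩ := (bd_compact o).ultrafilter_le_nhds (l.map e') (by
    rw [le_principal_iff]
    exact he.mono fun i hi => hi.2.1)
  have h2' : Tendsto e' (l : Filter ι) (𝓝 d'') := h2
  have h3 : Asy d'' (fun t => g • d t) := by
    refine ⟨dist o (g • o), fun t ht => ?_⟩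
    have h4 : Tendsto (fun i => dist (e' i t) (g • e i t)) (l : Filter ι)
        (𝓝 (dist (d'' t) (g • d t))) := by
      refine Tendsto.dist ((continuous_apply t).tendsto _ |>.comp h2') ?_
      have h5 : Tendsto (fun i => e i t) (l : Filter ι) (𝓝 (d t)) :=
        (continuous_apply t).tendsto _ |>.comp hl
      exact ((isometry_smul X g).continuous.tendsto _).comp h5
    refine le_of_tendsto h4 (he.mono fun i hi => ?_)
    exact asy_le hX hi.2.1.1 (ray_smul g hi.1.1) hi.2.2 ht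
  rw [bd_ext hX hd' h1 (hdd.trans h3.symm)]
  exact h2'

/-- closed invariant sets -/
structure Inv (G : Type v) [Group G] [MulAction G X] (o : X) (C : Set (ℝ → X)) : Prop where
  sub : C ⊆ Bd o
  closed : IsClosed C
  ne : C.Nonempty
  inv : ∀ c ∈ C, ∀ g : G, ∀ c' ∈ Bd o, Asy c' (fun t => g • c t) → c' ∈ C

/-- the orbit of `c` -/
def Orb (G : Type v) [Group G] [MulAction G X] (o : X) (c : ℝ → X) : Set (ℝ → X) :=
  {c' | c' ∈ Bd o ∧ ∃ g : G, Asy c' (fun t => g • c t)}

lemma orb_self {o : X} {c : ℝ → X} (hc : c ∈ Bd o) : c ∈ Orb G o c :=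
  ⟨hc, 1, 0, fun t _ => by simp⟩

lemma orb_inv [ProperSpace X] (hX : CN X) {o : X} {c : ℝ → X} (hc : c ∈ Bd o) :
    Inv G o (closure (Orb G o c)) := by
  refine ⟨?_, isClosed_closure, ⟨c, subset_closure (orb_self hc)⟩, ?_⟩
  · exact closure_minimal (fun c' h => h.1) (bd_compact o).isClosed
  · intro d hd g d' hd' hdd
    have hdB : d ∈ Bd o := closure_minimal (fun c' h => h.1) (bd_compact o).isClosed hd
    obtain ⟨l, hl1, hl2⟩ := mem_closure_iff_ultrafilter.1 hd
    choose F hF using act_exists hX o g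
    have h1 : ∀ᶠ e in (l : Filter (ℝ → X)), e ∈ Orb G o c := hl1
    have h2 : Tendsto F (l : Filter (ℝ → X)) (𝓝 d') :=
      act_tendsto hX g l (e := id) hdB hd' hdd
        (h1.mono fun e he => ⟨he.1, (hF e he.1).1, (hF e he.1).2⟩) hl2
    refine mem_closure_of_tendsto h2 (h1.mono fun e he => ?_)
    obtain ⟨h3, k, h4⟩ := he
    refine ⟨(hF e h3).1, g * k, ?_⟩
    have h5 := (hF e h3).2.trans (h4.smul g)
    simpa [mul_smul] using h5

/-- minimal closed invariant sets -/
lemma exists_minimal [ProperSpace X] {o : X} {C : Set (ℝ → X)} (hC : Inv G o C) :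
    ∃ M, M ⊆ C ∧ Inv G o M ∧ ∀ C', Inv G o C' → C' ⊆ M → C' = M := by
  obtain ⟨M, h1, h2⟩ := zorn_superset_nonempty {C : Set (ℝ → X) | Inv G o C} (by
    intro c hc hch hne
    refine ⟨⋂₀ c, ⟨?_, ?_, ?_, ?_⟩, fun s hs => sInter_subset_of_mem hs⟩
    · obtain ⟨s, hs⟩ := hne
      exact (sInter_subset_of_mem hs).trans (hc hs).sub
    · exact isClosed_sInter fun s hs => (hc hs).closed
    · haveI : Nonempty c := hne.to_subtype
      refine IsCompact.nonempty_sInter_of_directed_nonempty_isCompact_isClosed ?_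
        (fun s hs => (hc hs).ne) (fun s hs => (bd_compact o).of_isClosed_subset (hc hs).closed
          (hc hs).sub) (fun s hs => (hc hs).closed)
      intro s hs t ht
      rcases hch.total hs ht with h | h
      · exact ⟨s, hs, subset_rfl, h⟩
      · exact ⟨t, ht, h, subset_rfl⟩
    · intro d hd g d' hd' hdd
      exact mem_sInter.2 fun s hs => (hc hs).inv d (mem_sInter.1 hd s hs) g d' hd' hdd) C hC
  refine ⟨M, h1, h2.1, fun C' h3 h4 => ?_⟩
  exact subset_antisymm h4 (h2.2 h3 h4)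

end action

end Pool.Agent.N53.RO
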