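import Pool.Agent.N53.RO.All

/-!
# Busemann functions
-/

set_option autoImplicit false

universe u v

open Metric Set Filter Topology
open Pool.Agent.TH60.FP Pool.Agent.Y34.HB Pool.Agent.Y34.EL

namespace Pool.Agent.N53.RO

variable {X : Type u} [MetricSpace X]

/-- the Busemann function of the ray `c` -/
noncomputable def bus (c : ℝ → X) (z : X) : ℝ := ⨅ n : ℕ, (dist z (c n) - n)

lemma bus_tend {p : X} {c : ℝ → X} (hc : Ray p c) (z : X) :
    Tendsto (fun n : ℕ => dist z (c n) - n) atTop (𝓝 (bus c z)) := by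
  refine tendsto_atTop_ciInf ?_ ⟨-dist z p, ?_⟩
  · intro n m hnm
    have hnm' : (n : ℝ) ≤ m := Nat.cast_le.2 hnm
    have h1 := dist_triangle z (c n) (c m)
    rw [hc.2 n m (Nat.cast_nonneg n) (Nat.cast_nonneg m), abs_sub_comm,
      abs_of_nonneg (by linarith)] at h1
    show dist z (c m) - m ≤ dist z (c n) - n
    linarith
  · rintro _ ⟨n, rfl⟩
    have h1 := dist_triangle p z (c n)
    rw [ray_dist hc (Nat.cast_nonneg n), dist_comm p z] at h1
    show -dist z p ≤ dist z (c n) - n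
    linarith

lemma bus_tend' {p : X} {c : ℝ → X} (hc : Ray p c) (z z' : X) :
    Tendsto (fun n : ℕ => dist z (c n) - dist z' (c n)) atTop (𝓝 (bus c z - bus c z')) := by
  refine ((bus_tend hc z).sub (bus_tend hc z')).congr fun n => ?_
  ring

lemma bus_lip {p : X} {c : ℝ → X} (hc : Ray p c) (z z' : X) :
    |bus c z - bus c z'| ≤ dist z z' := by
  refine le_of_tendsto (bus_tend' hc z z').abs (Eventually.of_forall fun n => ?_)
  exact abs_dist_sub_le _ _ _

lemma bus_le {p : X} {c : ℝ → X} (hc : Ray p c) (z : X) : |bus c z| ≤ dist z p := by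
  refine le_of_tendsto (bus_tend hc z).abs (Eventually.of_forall fun n => ?_)
  have h1 := abs_dist_sub_le z p (c n)
  rw [ray_dist hc (Nat.cast_nonneg n)] at h1
  exact h1

lemma bus_ray {p : X} {c : ℝ → X} (hc : Ray p c) {s : ℝ} (hs : 0 ≤ s) : bus c (c s) = -s := by
  refine tendsto_nhds_unique (bus_tend hc (c s)) ?_
  refine tendsto_const_nhds.congr' ?_
  filter_upwards [tendsto_natCast_atTop_atTop.eventually_ge_atTop s] with n hn
  rw [hc.2 s n hs (Nat.cast_nonneg n), abs_sub_comm, abs_of_nonneg (by linarith)]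
  ring

/-- far points in one direction have almost the same Busemann function -/
lemma seg_est [ProperSpace X] (hX : CN X) {o y y' z : X} {R : ℝ} (h : On o y R y')
    (hR : dist o z < R) (hRy : R ≤ dist o y) :
    dist z y - dist o y ≤ dist z y' - R ∧
      dist z y' - R ≤ dist z y - dist o y + dist o z ^ 2 / (R - dist o z) := by
  obtain ⟨h1, h2⟩ := h
  have h3 := (t_stew X hX).2.2 o y R y' ⟨h1, h2⟩ z
  have hA : 0 ≤ dist o z := dist_nonneg
  constructor
  · have := dist_triangle z y' y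
    linarith
  · have h4 := abs_dist_sub_le z o y
    have h5 := abs_le.1 h4
    rw [dist_comm z o] at h3 h5
    generalize dist o z = A at *
    generalize dist z y = D at *
    generalize dist z y' = d at *
    generalize dist o y = T at *
    have hT : 0 < T := by linarith
    obtain ⟨β, hβ⟩ : ∃ β, β = D - T := ⟨_, rfl⟩
    have hβ1 : -A ≤ β := by linarith
    have hD : D = T + β := by linarith
    subst hD
    have h6 : T * d ^ 2 ≤ T * ((R + β) ^ 2 + A ^ 2) := by
      refine h3.trans ?_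
      have e : T * ((R + β) ^ 2 + A ^ 2) - ((T - R) * A ^ 2 + R * (T + β) ^ 2 - R * (T - R) * T) =
        (T - R) * β ^ 2 + R * A ^ 2 := by ring
      have : 0 ≤ (T - R) * β ^ 2 + R * A ^ 2 := by
        have := mul_nonneg (sub_nonneg.2 hRy) (sq_nonneg β)
        have := mul_nonneg (hA.trans hR.le) (sq_nonneg A)
        linarith
      linarith
    have h7 : d ^ 2 ≤ (R + β) ^ 2 + A ^ 2 := le_of_mul_le_mul_left h6 hT
    have h8 : 0 < R - A := by linarith
    have h9 : d ^ 2 ≤ (R + β + A ^ 2 / (R - A)) ^ 2 := by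
      have e1 : (R - A) * (A ^ 2 / (R - A)) = A ^ 2 := by field_simp
      have e2 : 0 ≤ A ^ 2 / (R - A) := by positivity
      nlinarith [mul_nonneg (by linarith : (0:ℝ) ≤ R + β - (R - A)) e2, mul_nonneg h8.le e2]
    have h10 := abs_le_of_sq_le_sq' h9 (by
      have e2 : 0 ≤ A ^ 2 / (R - A) := by positivity
      linarith)
    linarith [h10.2]

lemma bus_est [ProperSpace X] (hX : CN X) {o z : X} {c : ℝ → X} (hc : Ray o c) {R : ℝ}
    (hR : dist o z < R) :
    bus c z ≤ dist z (c R) - R ∧ dist z (c R) - R ≤ bus c z + dist o z ^ 2 / (R - dist o z) := by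
  have h0 : 0 ≤ R := dist_nonneg.trans hR.le
  have h1 : ∀ᶠ n : ℕ in atTop, dist z (c n) - n ≤ dist z (c R) - R ∧
      dist z (c R) - R ≤ dist z (c n) - n + dist o z ^ 2 / (R - dist o z) := by
    filter_upwards [tendsto_natCast_atTop_atTop.eventually_ge_atTop R] with n hn
    have h2 := seg_est hX (on_ray hc h0 hn) hR (by rwa [ray_dist hc (Nat.cast_nonneg n)])
    rwa [ray_dist hc (Nat.cast_nonneg n)] at h2
  constructor
  · exact le_of_tendsto (bus_tend hc z) (h1.mono fun n hn => hn.1)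
  · exact ge_of_tendsto ((bus_tend hc z).add_const _) (h1.mono fun n hn => hn.2)

/-- convergence to a boundary point -/
def Cv {ι : Type*} (l : Filter ι) (o : X) (p : ι → X) (c : ℝ → X) : Prop :=
  Tendsto (fun i => dist o (p i)) l atTop ∧ ∀ t ε : ℝ, 0 ≤ t → 0 < ε → ∀ᶠ i in l, ∀ y,
    On o (p i) t y → dist y (c t) ≤ ε

lemma cv_near [ProperSpace X] (hX : CN X) {ι : Type*} {l : Filter ι} {o : X} {p : ι → X}
    {c : ℝ → X} (hc : Ray o c) {s : ι → ℝ} (hs : Tendsto s l atTop) {K : ℝ}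
    (hK : ∀ᶠ i in l, dist (p i) (c (s i)) ≤ K) : Cv l o p c := by
  have h1 : ∀ᶠ i in l, s i - K ≤ dist o (p i) := by
    filter_upwards [hK, hs.eventually_ge_atTop 0] with i hi hi'
    have h2 := dist_triangle o (p i) (c (s i))
    rw [ray_dist hc hi'] at h2
    linarith
  have h0 : Tendsto (fun i => dist o (p i)) l atTop :=
    tendsto_atTop_mono' l h1 (tendsto_atTop_add_const_right l (-K) hs |>.congr fun i => by ring)
  refine ⟨h0, fun t ε ht hε => ?_⟩
  obtain ⟨L, hL⟩ : ∃ L, L = t + t * |K| / ε + 1 := ⟨_, rfl⟩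
  have hL0 : 0 ≤ t * |K| / ε := by positivity
  filter_upwards [hK, hs.eventually_ge_atTop L, h0.eventually_ge_atTop L] with i h2 h3 h4 y hy
  have h5 := (t_cmp X hX).1 o (p i) (c (s i)) t y (c t) hy
    (by
      refine ⟨ray_dist hc ht, ?_⟩
      rw [ray_dist hc (by linarith), hc.2 _ _ ht (by linarith), abs_sub_comm,
        abs_of_nonneg (by linarith)])
  rw [ray_dist hc (by linarith)] at h5
  by_contra h6
  push Not at h6
  have hKK : dist (p i) (c (s i)) ≤ |K| := h2.trans (le_abs_self K)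
  have h7 : dist (p i) (c (s i)) ^ 2 ≤ |K| ^ 2 := pow_le_pow_left₀ dist_nonneg hKK 2
  have h8 : ε ^ 2 < dist y (c t) ^ 2 := pow_lt_pow_left₀ h6 hε.le two_ne_zero
  have h9 : L * L ≤ dist o (p i) * s i := mul_le_mul h4 h3 (by linarith) dist_nonneg
  have hL1 : 0 < L := by linarith
  have h10 : dist y (c t) ^ 2 * (dist o (p i) * s i) ≤ t ^ 2 * |K| ^ 2 :=
    h5.trans (mul_le_mul_of_nonneg_left (by nlinarith [sq_nonneg (dist o (p i) - s i)])
      (sq_nonneg t))
  have h11 : ε ^ 2 * (L * L) < dist y (c t) ^ 2 * (dist o (p i) * s i) :=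
    mul_lt_mul'' h8 (lt_of_le_of_ne h9 (by
      intro h
      have h12 : t * |K| ≤ ε * L := by
        rw [hL]
        have : ε * (t * |K| / ε) = t * |K| := by field_simp
        nlinarith
      have h13 : (t * |K|) ^ 2 ≤ (ε * L) ^ 2 := pow_le_pow_left₀ (by positivity) h12 2
      rw [← h] at h10
      have h14 : ε ^ 2 * (L * L) < dist y (c t) ^ 2 * (L * L) :=
        mul_lt_mul_of_pos_right h8 (by positivity)
      nlinarith)) (by positivity) (by positivity)
  have h12 : t * |K| ≤ ε * L := by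
    rw [hL]
    have : ε * (t * |K| / ε) = t * |K| := by field_simp
    nlinarith
  have h13 : (t * |K|) ^ 2 ≤ (ε * L) ^ 2 := pow_le_pow_left₀ (by positivity) h12 2
  nlinarith

lemma bus_cv [ProperSpace X] (hX : CN X) {ι : Type*} {l : Filter ι} {o : X} {p : ι → X}
    {c : ℝ → X} (hc : Ray o c) (h : Cv l o p c) (z : X) :
    Tendsto (fun i => dist z (p i) - dist o (p i)) l (𝓝 (bus c z)) := by
  rw [Metric.tendsto_nhds]
  intro ε hε
  obtain ⟨R, hR⟩ : ∃ R, R = dist o z + dist o z ^ 2 * (3 / ε) + 1 := ⟨_, rfl⟩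
  have hz : 0 ≤ dist o z := dist_nonneg
  have h0 : 0 ≤ dist o z ^ 2 * (3 / ε) := by positivity
  have hR0 : dist o z < R := by linarith
  have hq : dist o z ^ 2 / (R - dist o z) ≤ ε / 3 := by
    rw [div_le_iff₀ (by linarith)]
    have : ε / 3 * (dist o z ^ 2 * (3 / ε)) = dist o z ^ 2 := by field_simp
    have e : R - dist o z = dist o z ^ 2 * (3 / ε) + 1 := by rw [hR]; ring
    rw [e, mul_add, this]
    linarith
  filter_upwards [h.1.eventually_ge_atTop R, h.2 R (ε / 4) (by linarith) (by linarith)]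
    with i h1 h2
  obtain ⟨y, hy⟩ := (t_stew X hX).1 o (p i) R (by linarith) h1
  have h3 := h2 y hy
  have h4 := seg_est hX hy hR0 h1
  have h5 := bus_est hX hc hR0
  have h6 := abs_le.1 (abs_dist_sub_le z y (c R) |>.trans (le_refl _)) 
  have h7 : |dist z y - dist z (c R)| ≤ dist y (c R) := by
    rw [dist_comm z y, dist_comm z (c R)]
    exact abs_dist_sub_le _ _ _
  have h8 := abs_le.1 h7
  rw [Real.dist_eq, abs_lt]
  constructor <;> linarith [h4.1, h4.2, h5.1, h5.2, h8.1, h8.2]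

lemma bus_cv' [ProperSpace X] (hX : CN X) {ι : Type*} {l : Filter ι} {o : X} {p : ι → X}
    {c : ℝ → X} (hc : Ray o c) (h : Cv l o p c) (z z' : X) :
    Tendsto (fun i => dist z (p i) - dist z' (p i)) l (𝓝 (bus c z - bus c z')) := by
  refine ((bus_cv hX hc h z).sub (bus_cv hX hc h z')).congr fun n => ?_
  ring

/-- the Busemann functions of asymptotic rays, and the action -/
lemma bus_equi [ProperSpace X] (hX : CN X) {G : Type v} [Group G] [MulAction G X]
    [IsIsometricSMul G X] (g : G) {p o : X} {c c' : ℝ → X} (hc : Ray p c) (hc' : Ray o c')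
    (h : Asy c' (fun t => g • c t)) (z z' : X) :
    bus c' (g • z) - bus c' (g • z') = bus c z - bus c z' := by
  obtain ⟨K, hK⟩ := h
  have h1 : Cv (atTop : Filter ℕ) o (fun n : ℕ => g • c n) c' := by
    refine cv_near hX hc' (s := fun n : ℕ => (n : ℝ)) tendsto_natCast_atTop_atTop (K := K)
      (Eventually.of_forall fun n => ?_)
    rw [dist_comm]
    exact hK n (Nat.cast_nonneg n)
  refine tendsto_nhds_unique (bus_cv' hX hc' h1 (g • z) (g • z')) ?_
  refine (bus_tend' hc z z').congr fun n => ?_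
  rw [dist_smul, dist_smul]

lemma bus_asy [ProperSpace X] (hX : CN X) {p o : X} {c c' : ℝ → X} (hc : Ray p c)
    (hc' : Ray o c') (h : Asy c' c) (z z' : X) :
    bus c' z - bus c' z' = bus c z - bus c z' := by
  obtain ⟨K, hK⟩ := h
  have h1 : Cv (atTop : Filter ℕ) o (fun n : ℕ => c n) c' := by
    refine cv_near hX hc' (s := fun n : ℕ => (n : ℝ)) tendsto_natCast_atTop_atTop (K := K)
      (Eventually.of_forall fun n => ?_)
    rw [dist_comm]
    exact hK n (Nat.cast_nonneg n)
  exact tendsto_nhds_unique (bus_cv' hX hc' h1 z z') (bus_tend' hc z z')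

/-- continuity in both variables -/
lemma bus_lim [ProperSpace X] (hX : CN X) {ι : Type*} {l : Filter ι} {o : X} {c : ι → ℝ → X}
    {d : ℝ → X} (hc : ∀ᶠ i in l, Ray o (c i)) (hd : Ray o d)
    (h : ∀ t : ℝ, 0 ≤ t → Tendsto (fun i => c i t) l (𝓝 (d t))) {z : ι → X} {w : X}
    (hz : Tendsto z l (𝓝 w)) : Tendsto (fun i => bus (c i) (z i)) l (𝓝 (bus d w)) := by
  rw [Metric.tendsto_nhds]
  intro ε hε
  obtain ⟨R, hR⟩ : ∃ R, R = dist o w + dist o w ^ 2 * (4 / ε) + 1 := ⟨_, rfl⟩
  have hz0 : 0 ≤ dist o w := dist_nonneg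
  have h0 : 0 ≤ dist o w ^ 2 * (4 / ε) := by positivity
  have hR0 : dist o w < R := by linarith
  have hq : dist o w ^ 2 / (R - dist o w) ≤ ε / 4 := by
    rw [div_le_iff₀ (by linarith)]
    have : ε / 4 * (dist o w ^ 2 * (4 / ε)) = dist o w ^ 2 := by field_simp
    have e : R - dist o w = dist o w ^ 2 * (4 / ε) + 1 := by rw [hR]; ring
    rw [e, mul_add, this]
    linarith
  have h1 := (h R (by linarith)).eventually (Metric.ball_mem_nhds (d R) (by positivity : 0 < ε / 4))
  have h2 := hz.eventually (Metric.ball_mem_nhds w (by positivity : 0 < ε / 4))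
  filter_upwards [hc, h1, h2] with i h3 h4 h5
  have h6 := bus_est hX h3 hR0
  have h7 := bus_est hX hd hR0
  have h8 := abs_le.1 (bus_lip h3 (z i) w)
  have h9 : |dist w (c i R) - dist w (d R)| ≤ dist (c i R) (d R) := by
    rw [dist_comm w (c i R), dist_comm w (d R)]
    exact abs_dist_sub_le _ _ _
  have h10 := abs_le.1 h9
  rw [Real.dist_eq, abs_lt]
  constructor <;> linarith [h6.1, h6.2, h7.1, h7.2, h8.1, h8.2, h10.1, h10.2]

/-- convexity -/
lemma bus_conv [ProperSpace X] (hX : CN X) {o : X} {c : ℝ → X} (hc : Ray o c) {p q y : X} {t : ℝ}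
    (ht : 0 ≤ t) (ht1 : t ≤ 1) (hy : On p q (t * dist p q) y) :
    bus c y ≤ (1 - t) * bus c p + t * bus c q := by
  refine le_of_tendsto_of_tendsto (bus_tend hc y)
    (((bus_tend hc p).const_mul (1 - t)).add ((bus_tend hc q).const_mul t))
    (Eventually.of_forall fun n => ?_)
  have h1 := (t_cmp X hX).2 p q (c n) (c n) t y (c n) hy
    ⟨by rw [dist_self, mul_zero], by rw [dist_self, mul_zero, sub_self]⟩ ht ht1
  show dist y (c n) - n ≤ (1 - t) * (dist p (c n) - n) + t * (dist q (c n) - n)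
  linarith

/-- a point almost on a geodesic -/
lemma stew_est [ProperSpace X] (hX : CN X) {x w y u : X} {T δ : ℝ} (hT : 0 ≤ T)
    (hy : On x w T y) (hu : dist x u = T) (hδ : 0 ≤ δ) (huw : dist u w ≤ dist x w - T + δ)
    (hTw : T ≤ dist x w) : dist x w * dist u y ^ 2 ≤ dist x w * (2 * δ * T) + T * δ ^ 2 := by
  have h1 := (t_stew X hX).2.2 x w T y hy u
  rw [dist_comm u x, hu] at h1
  have h2 : dist u w ^ 2 ≤ (dist x w - T + δ) ^ 2 := pow_le_pow_left₀ dist_nonneg huw 2
  refine h1.trans ?_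
  have h3 : T * dist u w ^ 2 ≤ T * (dist x w - T + δ) ^ 2 := mul_le_mul_of_nonneg_left h2 hT
  have h4 : 0 ≤ T * T * δ := by positivity
  nlinarith

/-- gradient lines of a Busemann function -/
lemma bus_grad [ProperSpace X] (hX : CN X) {o p : X} {c γ : ℝ → X} (hc : Ray o c) (hγ : Ray p γ)
    (h : ∀ T : ℝ, 0 ≤ T → bus c (γ T) ≤ bus c p - T) : Asy γ c := by
  obtain ⟨r, hr, hrc⟩ := asy_exists hX p hc
  suffices h0 : ∀ T : ℝ, 0 ≤ T → γ T = r T by
    obtain ⟨K, hK⟩ := hrc
    exact ⟨K, fun t ht => by rw [h0 t ht]; exact hK t ht⟩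
  intro T hT
  obtain ⟨K, hK⟩ := hrc
  have h1 : Cv (atTop : Filter ℕ) p (fun n : ℕ => c n) r :=
    cv_near hX hr (s := fun n : ℕ => (n : ℝ)) tendsto_natCast_atTop_atTop (K := K)
      (Eventually.of_forall fun n => by
        rw [dist_comm]
        exact hK n (Nat.cast_nonneg n))
  by_contra hne
  have hpos : 0 < dist (γ T) (r T) := dist_pos.2 hne
  set ε := dist (γ T) (r T) with hε
  obtain ⟨δ, hδ⟩ : ∃ δ, δ = min 1 (ε ^ 2 / (16 * (T + 1))) := ⟨_, rfl⟩
  have hδ0 : 0 < δ := by rw [hδ]; positivity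
  have hδ1 : δ ≤ 1 := by rw [hδ]; exact min_le_left _ _
  have hδ2 : δ * (16 * (T + 1)) ≤ ε ^ 2 := by
    have : δ ≤ ε ^ 2 / (16 * (T + 1)) := by rw [hδ]; exact min_le_right _ _
    rwa [le_div_iff₀ (by positivity)] at this
  have h2 := (bus_tend' hc (γ T) p).eventually_lt_const
    (show bus c (γ T) - bus c p < -T + δ by linarith [h T hT])
  obtain ⟨n, h3, h4, h5⟩ := (h2.and ((h1.1.eventually_ge_atTop (T + 1)).and
    (h1.2 T (ε / 2) hT (by positivity)))).exists
  obtain ⟨y, hy⟩ := (t_stew X hX).1 p (c n) T hT (by linarith)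
  have h6 := h5 y hy
  have h7 := stew_est hX hT hy (ray_dist hγ hT) hδ0.le (by linarith) (by linarith)
  have h8 : dist (γ T) y ^ 2 ≤ 2 * δ * T + T * δ ^ 2 := by
    have hD : 1 ≤ dist p (c n) := by linarith
    have h9 : T * δ ^ 2 ≤ dist p (c n) * (T * δ ^ 2) := by
      have : 0 ≤ T * δ ^ 2 := by positivity
      nlinarith
    have h10 : dist p (c n) * dist (γ T) y ^ 2 ≤ dist p (c n) * (2 * δ * T + T * δ ^ 2) := by
      linarith
    exact le_of_mul_le_mul_left h10 (by linarith)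
  have h11 := dist_triangle (γ T) y (r T)
  have h12 : ε / 2 ≤ dist (γ T) y := by linarith
  have h13 : (ε / 2) ^ 2 ≤ dist (γ T) y ^ 2 := pow_le_pow_left₀ (by positivity) h12 2
  have h14 : T * δ ^ 2 ≤ δ * T := by nlinarith [mul_nonneg hT hδ0.le]
  nlinarith

end Pool.Agent.N53.RO
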