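import Pool.Agent.N53.RO.Flat

/-!
# Criteria for half-planes along all lines
-/

set_option autoImplicit false

universe u v

open Metric Set Filter Topology
open Pool.Agent.TH60.FP Pool.Agent.Y34.HB Pool.Agent.Y34.EL

namespace Pool.Agent.N53.RO

variable {X : Type u} [MetricSpace X] {G : Type v} [Group G] [MulAction G X]

lemma isom_closed {α : Type*} [PseudoMetricSpace α] : IsClosed {F : α → X | Isometry F} := by
  have e : {F : α → X | Isometry F} = ⋂ x : α, ⋂ y : α, {F : α → X | dist (F x) (F y) = dist x y} := by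
    ext F
    simp only [Set.mem_ofPred_eq, mem_iInter]
    exact ⟨fun h x y => h.dist_eq x y, fun h => Isometry.of_dist_eq h⟩
  rw [e]
  exact isClosed_iInter fun x => isClosed_iInter fun y =>
    isClosed_eq ((continuous_apply x).dist (continuous_apply y)) continuous_const

/-- the rays of a flat -/
lemma flat_ray {n : ℕ} {F : E n → X} (hF : Isometry F) {u : E n} (hu : ‖u‖ = 1) (v : E n) :
    Ray (F v) (fun t : ℝ => F (v + t • u)) := by
  refine ⟨by simp, fun s t _ _ => ?_⟩
  rw [hF.dist_eq, dist_eq_norm, show v + s • u - (v + t • u) = (s - t) • u by module, norm_smul,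
    hu, mul_one, Real.norm_eq_abs]

lemma flat_line {n : ℕ} {F : E n → X} (hF : Isometry F) {u : E n} (hu : ‖u‖ = 1) :
    Isometry (fun t : ℝ => F (t • u)) := by
  refine Isometry.of_dist_eq fun s t => ?_
  rw [hF.dist_eq, dist_eq_norm, show s • u - t • u = (s - t) • u by module, norm_smul,
    hu, mul_one, Real.norm_eq_abs, Real.dist_eq]

/-- the flats with all ends in `ZZ o` -/
def LZ (o : X) (n : ℕ) : Set (E n → X) :=
  {F | Isometry F ∧ ∀ u : E n, ‖u‖ = 1 → ∀ c ∈ Bd o, Asy c (fun t : ℝ => F (t • u)) → c ∈ ZZ o}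

lemma lz_fam (hG : Geo X G) (o : X) (n : ℕ) : Fam G (LZ o n) := by
  have := hG.proper
  have := hG.isom
  have hX := hG.cn
  refine ⟨fun F hF => hF.1, ?_, ?_, ?_⟩
  · refine isClosed_of_closure_subset fun F hF => ?_
    have hFi : Isometry F := closure_minimal (fun F' h => h.1) isom_closed hF
    refine ⟨hFi, fun u hu c hc hcF => ?_⟩
    obtain ⟨l, hl1, hl2⟩ := mem_closure_iff_ultrafilter.1 hF
    have h1 : ∀ F' : E n → X, ∃ c' : ℝ → X, F' ∈ LZ o n → c' ∈ Bd o ∧
        Asy c' (fun t : ℝ => F' (t • u)) := by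
      intro F'
      by_cases h : F' ∈ LZ o n
      · obtain ⟨c', h2, h3⟩ := bd_exists hX o (flat_ray h.1 hu 0)
        simp only [zero_add] at h3
        exact ⟨c', fun _ => ⟨h2, h3⟩⟩
      · exact ⟨c, fun h' => absurd h' h⟩
    choose C hC using h1
    have hl1' : ∀ᶠ F' in (l : Filter (E n → X)), F' ∈ LZ o n := hl1
    obtain ⟨c', hc'Z, hc'⟩ := ((bd_compact o).of_isClosed_subset (zz_closed hX o)
      fun c h => h.1).ultrafilter_le_nhds (l.map C) (by
        rw [le_principal_iff]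
        exact hl1'.mono fun F' h => h.2 u hu _ (hC F' h).1 (hC F' h).2)
    have hc'' : Tendsto C (l : Filter (E n → X)) (𝓝 c') := hc'
    have hFv : ∀ v, Tendsto (fun F' : E n → X => F' v) (l : Filter (E n → X)) (𝓝 (F v)) :=
      fun v => (continuous_apply v).tendsto _ |>.comp hl2
    have h2 : Asy c' (fun t : ℝ => F (t • u)) := by
      refine ⟨dist o (F 0), fun t ht => ?_⟩
      refine le_of_tendsto_of_tendsto ((pt_tendsto hc'' t).dist (hFv (t • u)))
        (tendsto_const_nhds.dist (hFv 0)) (hl1'.mono fun F' h => ?_)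
      have h3 := flat_ray h.1 hu 0
      simp only [zero_add] at h3
      exact asy_le hX (hC F' h).1.1 h3 (hC F' h).2 ht
    rw [bd_ext hX hc hc'Z.1 (hcF.trans h2.symm)]
    exact hc'Z
  · intro F hF g
    refine ⟨(isometry_smul X g).comp hF.1, fun u hu c hc hcF => ?_⟩
    have h0 := flat_ray hF.1 hu 0
    simp only [zero_add] at h0
    obtain ⟨c', h2, h3⟩ := bd_exists hX o h0
    exact zz_inv (hF.2 u hu c' h2 h3) g hc (hcF.trans (h3.symm.smul g))
  · intro F hF a
    refine ⟨hF.1.comp (IsometryEquiv.addLeft a).isometry, fun u hu c hc hcF => ?_⟩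
    refine hF.2 u hu c hc (hcF.trans ⟨‖a‖, fun t ht => ?_⟩)
    rw [hF.1.dist_eq, dist_eq_norm, add_sub_cancel_right]

/-- the flats such that all their lines are almost reversed by elements of the group -/
def LR (G : Type v) [Group G] [MulAction G X] (C : ℝ) (n : ℕ) : Set (E n → X) :=
  {F | Isometry F ∧ ∀ v u : E n, ‖u‖ = 1 → ∃ g : G, ∀ t : ℝ, 0 ≤ t →
    dist (g • F (v - t • u)) (F (v + t • u)) ≤ C}

lemma finite_near (hG : Geo X G) (x : X) (C : ℝ) :
    {g : G | ∃ y, dist y x ≤ C ∧ dist (g • y) x ≤ C}.Finite := by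
  have := hG.proper
  have := hG.disc
  have h1 := ProperlyDiscontinuousSMul.finite_disjoint_inter_image (Γ := G)
    (isCompact_closedBall x C) (isCompact_closedBall x C)
  refine h1.subset ?_
  rintro g ⟨y, h2, h3⟩
  have h4 : g • y ∈ (fun x => g • x) '' closedBall x C ∩ closedBall x C :=
    ⟨⟨y, h2, rfl⟩, h3⟩
  exact ⟨_, h4⟩

lemma lr_fam (hG : Geo X G) (C : ℝ) (n : ℕ) : Fam G (LR (X := X) G C n) := by
  have := hG.proper
  have := hG.isom
  have hX := hG.cn
  refine ⟨fun F hF => hF.1, ?_, ?_, ?_⟩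
  · refine isClosed_of_closure_subset fun F hF => ?_
    have hFi : Isometry F := closure_minimal (fun F' h => h.1) isom_closed hF
    refine ⟨hFi, fun v u hu => ?_⟩
    obtain ⟨l, hl1, hl2⟩ := mem_closure_iff_ultrafilter.1 hF
    have h1 : ∀ F' : E n → X, ∃ g : G, F' ∈ LR G C n → ∀ t : ℝ, 0 ≤ t →
        dist (g • F' (v - t • u)) (F' (v + t • u)) ≤ C := by
      intro F'
      by_cases h : F' ∈ LR (X := X) G C n
      · obtain ⟨g, hg⟩ := h.2 v u hu
        exact ⟨g, fun _ => hg⟩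
      · exact ⟨1, fun h' => absurd h' h⟩
    choose g hg using h1
    have hl1' : ∀ᶠ F' in (l : Filter (E n → X)), F' ∈ LR (X := X) G C n := hl1
    have hFv : ∀ v, Tendsto (fun F' : E n → X => F' v) (l : Filter (E n → X)) (𝓝 (F v)) :=
      fun v => (continuous_apply v).tendsto _ |>.comp hl2
    have hnear : ∀ᶠ F' in (l : Filter (E n → X)), dist (F' v) (F v) < 1 :=
      (hFv v).eventually (Metric.ball_mem_nhds (F v) one_pos)
    have hfin := finite_near hG (F v) (|C| + 1)
    obtain ⟨g₀, -, hg₀⟩ := Ultrafilter.eq_pure_of_finite_mem (f := l.map g) hfin (by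
      refine (hl1'.and hnear).mono fun F' h => ?_
      have h2 := hg F' h.1 0 le_rfl
      rw [zero_smul, sub_zero, add_zero] at h2
      refine ⟨F' v, h.2.le.trans (by linarith [abs_nonneg C]), ?_⟩
      have h3 := dist_triangle (g F' • F' v) (F' v) (F v)
      linarith [le_abs_self C, h.2])
    have h2 : ∀ᶠ F' in (l : Filter (E n → X)), g F' = g₀ := by
      have : {g₀} ∈ l.map g := by rw [hg₀]; exact Filter.mem_pure.2 rfl
      exact this
    refine ⟨g₀, fun t ht => ?_⟩
    have h3 : Tendsto (fun F' : E n → X => g₀ • F' (v - t • u)) (l : Filter (E n → X))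
        (𝓝 (g₀ • F (v - t • u))) := ((isometry_smul X g₀).continuous.tendsto _).comp (hFv _)
    refine le_of_tendsto (h3.dist (hFv (v + t • u))) ((hl1'.and h2).mono fun F' h => ?_)
    rw [← h.2]
    exact hg F' h.1 t ht
  · intro F hF g
    refine ⟨(isometry_smul X g).comp hF.1, fun v u hu => ?_⟩
    obtain ⟨h, hh⟩ := hF.2 v u hu
    refine ⟨g * h * g⁻¹, fun t ht => ?_⟩
    show dist ((g * h * g⁻¹) • g • F (v - t • u)) (g • F (v + t • u)) ≤ C
    rw [mul_smul, inv_smul_smul, mul_smul, dist_smul]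
    exact hh t ht
  · intro F hF a
    refine ⟨hF.1.comp (IsometryEquiv.addLeft a).isometry, fun v u hu => ?_⟩
    obtain ⟨h, hh⟩ := hF.2 (a + v) u hu
    refine ⟨h, fun t ht => ?_⟩
    show dist (h • F (a + (v - t • u))) (F (a + (v + t • u))) ≤ C
    rw [← add_sub_assoc, ← add_assoc]
    exact hh t ht

/-- the flats such that for every geodesic ray either the ray is almost reversed by an element of
the group or its end is in `ZZ o` -/
def LM (G : Type v) [Group G] [MulAction G X] (o : X) (C : ℝ) (n : ℕ) : Set (E n → X) :=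
  {F | Isometry F ∧ ∀ v u : E n, ‖u‖ = 1 → (∃ g : G, ∀ t : ℝ, 0 ≤ t →
    dist (g • F (v - t • u)) (F (v + t • u)) ≤ C) ∨
    ∀ c ∈ Bd o, Asy c (fun t : ℝ => F (t • u)) → c ∈ ZZ o}

lemma lm_fam (hG : Geo X G) (o : X) (C : ℝ) (n : ℕ) : Fam G (LM (X := X) G o C n) := by
  have := hG.proper
  have := hG.isom
  have hX := hG.cn
  refine ⟨fun F hF => hF.1, ?_, ?_, ?_⟩
  · refine isClosed_of_closure_subset fun F hF => ?_
    have hFi : Isometry F := closure_minimal (fun F' h => h.1) isom_closed hF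
    refine ⟨hFi, fun v u hu => ?_⟩
    obtain ⟨l, hl1, hl2⟩ := mem_closure_iff_ultrafilter.1 hF
    have hl1' : ∀ᶠ F' in (l : Filter (E n → X)), F' ∈ LM (X := X) G o C n := hl1
    have hFv : ∀ v, Tendsto (fun F' : E n → X => F' v) (l : Filter (E n → X)) (𝓝 (F v)) :=
      fun v => (continuous_apply v).tendsto _ |>.comp hl2
    have hor : (∀ᶠ F' in (l : Filter (E n → X)), ∃ g : G, ∀ t : ℝ, 0 ≤ t →
        dist (g • F' (v - t • u)) (F' (v + t • u)) ≤ C) ∨
        ∀ᶠ F' in (l : Filter (E n → X)), ∀ c ∈ Bd o, Asy c (fun t : ℝ => F' (t • u)) →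
          c ∈ ZZ o := by
      rw [← Ultrafilter.eventually_or]
      exact hl1'.mono fun F' h => h.2 v u hu
    rcases hor with hor | hor
    · left
      have h1 : ∀ F' : E n → X, ∃ g : G, (∃ g : G, ∀ t : ℝ, 0 ≤ t →
          dist (g • F' (v - t • u)) (F' (v + t • u)) ≤ C) → ∀ t : ℝ, 0 ≤ t →
          dist (g • F' (v - t • u)) (F' (v + t • u)) ≤ C := by
        intro F'
        by_cases h : ∃ g : G, ∀ t : ℝ, 0 ≤ t →
          dist (g • F' (v - t • u)) (F' (v + t • u)) ≤ C
        · obtain ⟨g, hg⟩ := h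
          exact ⟨g, fun _ => hg⟩
        · exact ⟨1, fun h' => absurd h' h⟩
      choose g hg using h1
      have hnear : ∀ᶠ F' in (l : Filter (E n → X)), dist (F' v) (F v) < 1 :=
        (hFv v).eventually (Metric.ball_mem_nhds (F v) one_pos)
      have hfin := finite_near hG (F v) (|C| + 1)
      obtain ⟨g₀, -, hg₀⟩ := Ultrafilter.eq_pure_of_finite_mem (f := l.map g) hfin (by
        refine (hor.and hnear).mono fun F' h => ?_
        have h2 := hg F' h.1 0 le_rfl
        rw [zero_smul, sub_zero, add_zero] at h2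
        refine ⟨F' v, h.2.le.trans (by linarith [abs_nonneg C]), ?_⟩
        have h3 := dist_triangle (g F' • F' v) (F' v) (F v)
        linarith [le_abs_self C, h.2])
      have h2 : ∀ᶠ F' in (l : Filter (E n → X)), g F' = g₀ := by
        have : {g₀} ∈ l.map g := by rw [hg₀]; exact Filter.mem_pure.2 rfl
        exact this
      refine ⟨g₀, fun t ht => ?_⟩
      have h3 : Tendsto (fun F' : E n → X => g₀ • F' (v - t • u)) (l : Filter (E n → X))
          (𝓝 (g₀ • F (v - t • u))) := ((isometry_smul X g₀).continuous.tendsto _).comp (hFv _)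
      refine le_of_tendsto (h3.dist (hFv (v + t • u))) ((hor.and h2).mono fun F' h => ?_)
      rw [← h.2]
      exact hg F' h.1 t ht
    · right
      intro c hc hcF
      have h1 : ∀ F' : E n → X, ∃ c' : ℝ → X, F' ∈ LM (X := X) G o C n → c' ∈ Bd o ∧
          Asy c' (fun t : ℝ => F' (t • u)) := by
        intro F'
        by_cases h : F' ∈ LM (X := X) G o C n
        · obtain ⟨c', h2, h3⟩ := bd_exists hX o (flat_ray h.1 hu 0)
          simp only [zero_add] at h3
          exact ⟨c', fun _ => ⟨h2, h3⟩⟩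
        · exact ⟨c, fun h' => absurd h' h⟩
      choose D hD using h1
      obtain ⟨c', hc'Z, hc'⟩ := ((bd_compact o).of_isClosed_subset (zz_closed hX o)
        fun c h => h.1).ultrafilter_le_nhds (l.map D) (by
          rw [le_principal_iff]
          exact (hl1'.and hor).mono fun F' h => h.2 _ (hD F' h.1).1 (hD F' h.1).2)
      have hc'' : Tendsto D (l : Filter (E n → X)) (𝓝 c') := hc'
      have h2 : Asy c' (fun t : ℝ => F (t • u)) := by
        refine ⟨dist o (F 0), fun t ht => ?_⟩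
        refine le_of_tendsto_of_tendsto ((pt_tendsto hc'' t).dist (hFv (t • u)))
          (tendsto_const_nhds.dist (hFv 0)) (hl1'.mono fun F' h => ?_)
        have h3 := flat_ray h.1 hu 0
        simp only [zero_add] at h3
        exact asy_le hX (hD F' h).1.1 h3 (hD F' h).2 ht
      rw [bd_ext hX hc hc'Z.1 (hcF.trans h2.symm)]
      exact hc'Z
  · intro F hF g
    refine ⟨(isometry_smul X g).comp hF.1, fun v u hu => ?_⟩
    rcases hF.2 v u hu with ⟨h, hh⟩ | h
    · left
      refine ⟨g * h * g⁻¹, fun t ht => ?_⟩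
      show dist ((g * h * g⁻¹) • g • F (v - t • u)) (g • F (v + t • u)) ≤ C
      rw [mul_smul, inv_smul_smul, mul_smul, dist_smul]
      exact hh t ht
    · right
      intro c hc hcF
      have h0 := flat_ray hF.1 hu 0
      simp only [zero_add] at h0
      obtain ⟨c', h2, h3⟩ := bd_exists hX o h0
      exact zz_inv (h c' h2 h3) g hc (hcF.trans (h3.symm.smul g))
  · intro F hF a
    refine ⟨hF.1.comp (IsometryEquiv.addLeft a).isometry, fun v u hu => ?_⟩
    rcases hF.2 (a + v) u hu with ⟨h, hh⟩ | h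
    · left
      refine ⟨h, fun t ht => ?_⟩
      show dist (h • F (a + (v - t • u))) (F (a + (v + t • u))) ≤ C
      rw [← add_sub_assoc, ← add_assoc]
      exact hh t ht
    · right
      intro c hc hcF
      refine h c hc (hcF.trans ⟨‖a‖, fun t ht => ?_⟩)
      rw [hF.1.dist_eq, dist_eq_norm, add_sub_cancel_right]

/-- one flat of maximal dimension with both kinds of ends -/
theorem crit_mix (hG : Geo X G) (hno : ∀ g : G, ¬ RankOne X g) {n : ℕ}
    (hmax : ∀ F : E (n + 1) → X, ¬ Isometry F)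
    {F : E n → X} (hF : Isometry F) {C : ℝ} (h : ∀ v u : E n, ‖u‖ = 1 → (∃ g : G, ∀ t : ℝ,
      0 ≤ t → dist (g • F (v - t • u)) (F (v + t • u)) ≤ C) ∨ ∀ σ : ℝ → X, Isometry σ →
      Asy (fun t => σ (-t)) (fun t : ℝ => F (t • u)) → (HP σ).Nonempty) :
    ∀ σ : ℝ → X, Isometry σ → (HP σ).Nonempty := by
  have := hG.proper
  have := hG.isom
  have hX := hG.cn
  intro σ₀ hσ₀
  by_contra he
  obtain ⟨N, hN, hmin, hbad⟩ := exists_bad hG (F 0) hσ₀ he
  have hFL : F ∈ LM (X := X) G (F 0) C n := by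
    refine ⟨hF, fun v u hu => (h v u hu).imp_right fun h c hc hcF =>
      ⟨hc, fun σ hσ hσc => h σ hσ (hσc.trans hcF)⟩⟩
  obtain ⟨F', hF', a, ha, w, hw, hFa⟩ := flat_end hG hmax hN (lm_fam hG (F 0) C n) ⟨F, hFL⟩
  have h0 := flat_ray hF'.1 hw 0
  simp only [zero_add] at h0
  obtain ⟨y, hy, hyF⟩ := bd_exists hX (F 0) h0
  have hyZ : y ∈ ZZ (F 0) := by
    rcases hF'.2 0 w hw with ⟨g, hg⟩ | h1
    · have h1 : Asy (fun t : ℝ => g • F' ((-t) • w)) (fun t : ℝ => F' (t • w)) := by
        refine ⟨C, fun t ht => ?_⟩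
        have h2 := hg t ht
        rw [zero_sub, zero_add] at h2
        show dist (g • F' ((-t) • w)) (F' (t • w)) ≤ C
        rw [neg_smul]
        exact h2
      have hyN : y ∈ N := hN.inv a ha g y hy (hyF.trans (h1.symm.trans (hFa.smul g)))
      exact ⟨hy, fun σ hσ hσy => half_plane hG hno hN hmin hyN hσ hσy⟩
    · exact h1 y hy hyF
  exact hbad _ (flat_line hF'.1 hw) a ha hFa y hyZ hyF.symm

/-- one flat of maximal dimension with ends in `ZZ o` -/
theorem crit_flat (hG : Geo X G) {n : ℕ} (hmax : ∀ F : E (n + 1) → X, ¬ Isometry F)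
    {F : E n → X} (hF : Isometry F) (h : ∀ u : E n, ‖u‖ = 1 → ∀ σ : ℝ → X, Isometry σ →
      Asy (fun t => σ (-t)) (fun t : ℝ => F (t • u)) → (HP σ).Nonempty) :
    ∀ σ : ℝ → X, Isometry σ → (HP σ).Nonempty := by
  have := hG.proper
  have := hG.isom
  have hX := hG.cn
  intro σ₀ hσ₀
  by_contra he
  obtain ⟨N, hN, hmin, hbad⟩ := exists_bad hG (F 0) hσ₀ he
  have hFL : F ∈ LZ (F 0) n := by
    refine ⟨hF, fun u hu c hc hcF => ⟨hc, fun σ hσ hσc => h u hu σ hσ (hσc.trans hcF)⟩⟩
  obtain ⟨F', hF', a, ha, w, hw, hFa⟩ := flat_end hG hmax hN (lz_fam hG (F 0) n) ⟨F, hFL⟩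
  have h0 := flat_ray hF'.1 hw 0
  simp only [zero_add] at h0
  obtain ⟨y, hy, hyF⟩ := bd_exists hX (F 0) h0
  exact hbad _ (flat_line hF'.1 hw) a ha hFa y (hF'.2 w hw y hy hyF) hyF.symm

/-- one flat of maximal dimension whose lines are almost reversed by the group -/
theorem crit_rev (hG : Geo X G) (hno : ∀ g : G, ¬ RankOne X g) {n : ℕ}
    (hmax : ∀ F : E (n + 1) → X, ¬ Isometry F)
    {F : E n → X} (hF : Isometry F) {C : ℝ} (h : ∀ v u : E n, ‖u‖ = 1 → ∃ g : G, ∀ t : ℝ,
      0 ≤ t → dist (g • F (v - t • u)) (F (v + t • u)) ≤ C) :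
    ∀ σ : ℝ → X, Isometry σ → (HP σ).Nonempty := by
  have := hG.proper
  have := hG.isom
  have hX := hG.cn
  intro σ₀ hσ₀
  by_contra he
  obtain ⟨N, hN, hmin, hbad⟩ := exists_bad hG (F 0) hσ₀ he
  obtain ⟨F', hF', a, ha, w, hw, hFa⟩ := flat_end hG hmax hN (lr_fam hG C n) ⟨F, hF, h⟩
  have h0 := flat_ray hF'.1 hw 0
  simp only [zero_add] at h0
  obtain ⟨y, hy, hyF⟩ := bd_exists hX (F 0) h0
  obtain ⟨g, hg⟩ := hF'.2 0 w hw
  have h1 : Asy (fun t : ℝ => g • F' ((-t) • w)) (fun t : ℝ => F' (t • w)) := by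
    refine ⟨C, fun t ht => ?_⟩
    have h2 := hg t ht
    rw [zero_sub, zero_add] at h2
    show dist (g • F' ((-t) • w)) (F' (t • w)) ≤ C
    rw [neg_smul]
    exact h2
  have hyN : y ∈ N := hN.inv a ha g y hy (hyF.trans (h1.symm.trans (hFa.smul g)))
  have hyZ : y ∈ ZZ (F 0) := ⟨hy, fun σ hσ hσy => half_plane hG hno hN hmin hyN hσ hσy⟩
  exact hbad _ (flat_line hF'.1 hw) a ha hFa y hyZ hyF.symm

/-- Tits distances of minimal sets -/
theorem crit_tits (hG : Geo X G) {o : X}
    (h : ∀ N : Set (ℝ → X), Inv G o N → (∀ C', Inv G o C' → C' ⊆ N → C' = N) →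
      ∀ ε : ℝ, 0 < ε → ∃ c ∈ N, ∃ c' ∈ ZZ o, ∃ t : ℝ, 0 < t ∧ (2 - ε) * t < dist (c t) (c' t)) :
    ∀ σ : ℝ → X, Isometry σ → (HP σ).Nonempty := by
  intro σ₀ hσ₀
  by_contra he
  obtain ⟨N, hN, hmin, hbad⟩ := exists_bad hG o hσ₀ he
  obtain ⟨ε, hε, h1⟩ := tits_gap hG hN hbad
  obtain ⟨c, hc, c', hc', t, ht, h2⟩ := h N hN hmin ε hε
  exact absurd (h1 c hc c' hc' t ht) (not_le.2 h2)

end Pool.Agent.N53.RO
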