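import Pool.Agent.N53.RO.ZSet

/-!
# Dual points at infinity and lines
-/

set_option autoImplicit false

universe u v

open Metric Set Filter Topology
open Pool.Agent.TH60.FP Pool.Agent.Y34.HB Pool.Agent.Y34.EL

namespace Pool.Agent.N53.RO

variable {X : Type u} [MetricSpace X]

/-- change of base points -/
lemma dir_change [ProperSpace X] (hX : CN X) {o p q0 q y' y : X} {c c2 : ℝ → X} (hc : Ray o c)
    (hc2 : Ray p c2) (h : Asy c2 c) {A B K T' T : ℝ} (hA : dist o p ≤ A) (hB : dist q0 q ≤ B)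
    (hy' : On o q0 T' y') (hK : dist y' (c T') ≤ K) (hT' : T' ≤ dist o q0) (hAB : A + B < T')
    (hT : 0 ≤ T) (hTT : T ≤ T' - A - B) (hy : On p q T y) :
    dist y (c2 T) ≤ T * (K + 2 * A + B) / (T' - A - B) := by
  have hA0 : 0 ≤ A := dist_nonneg.trans hA
  have hB0 : 0 ≤ B := dist_nonneg.trans hB
  have hT'0 : 0 < T' := by linarith
  have hd : 0 < dist o q0 := by linarith
  obtain ⟨l, hl⟩ : ∃ l, l = T' / dist o q0 := ⟨_, rfl⟩
  have hld : l * dist o q0 = T' := by rw [hl, div_mul_cancel₀ _ hd.ne']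
  have hl0 : 0 ≤ l := by rw [hl]; positivity
  have hl1 : l ≤ 1 := by rw [hl, div_le_one hd]; exact hT'
  have hpq0 : 0 ≤ dist p q := dist_nonneg
  obtain ⟨y1, hy1⟩ := (t_stew X hX).1 p q (l * dist p q) (by positivity) (by nlinarith)
  have h1 := (t_cmp X hX).2 o q0 p q l y' y1 (by rw [hld]; exact hy') hy1 hl0 hl1
  have h2 : (1 - l) * dist o p ≤ A := by nlinarith [mul_nonneg hl0 (dist_nonneg (x := o) (y := p))]
  have h3 : l * dist q0 q ≤ B := by nlinarith [dist_nonneg (x := q0) (y := q)]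
  have h4 : T' - A - B ≤ l * dist p q := by
    have h5 := dist_triangle4 o p q q0
    rw [dist_comm q q0] at h5
    have h6 : l * dist o q0 ≤ l * (dist o p + dist p q + dist q0 q) :=
      mul_le_mul_of_nonneg_left h5 hl0
    have h7 : l * dist o p ≤ A := by nlinarith [dist_nonneg (x := o) (y := p)]
    rw [hld] at h6
    linarith
  have h5 : dist y1 (c2 T') ≤ K + 2 * A + B := by
    have h6 := dist_triangle4 y1 y' (c T') (c2 T')
    have h7 := asy_le hX hc2 hc h hT'0.le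
    rw [dist_comm y1 y', dist_comm (c T')] at h6
    rw [dist_comm p o] at h7
    linarith
  have h6 : On p y1 T y := by
    refine ⟨hy.1, ?_⟩
    rw [Pool.Agent.Y350.EL.on_dist t_stew hX hT (by linarith) hy hy1, hy1.1]
  exact near_dir hX hc2 hT h6 h5 (by linarith) (by linarith) (by linarith)
    (by rw [hy1.1]; exact h4)

variable {G : Type v} [Group G] [MulAction G X]

lemma dual_symm [IsIsometricSMul G X] {o : X} {c η : ℝ → X} (h : DualPair G o c η) :
    DualPair G o η c := by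
  intro t ht
  obtain ⟨g, h1, h2, h3⟩ := h t ht
  refine ⟨g⁻¹, ?_, h3, by rwa [inv_inv]⟩
  rw [← dist_smul g o, smul_inv_smul, dist_comm]
  exact h1

/-- the points which are dual to `ξ` -/
def Du (G : Type v) [Group G] [MulAction G X] (o : X) (ξ : ℝ → X) : Set (ℝ → X) :=
  {c | c ∈ Bd o ∧ DualPair G o c ξ}

lemma asy_self (c : ℝ → X) : Asy c c := ⟨0, fun t _ => by rw [dist_self]⟩

lemma du_closed [ProperSpace X] [IsIsometricSMul G X] (hX : CN X) {o : X} {ξ : ℝ → X}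
    (hξ : ξ ∈ Bd o) : IsClosed (Du G o ξ) := by
  refine isClosed_of_closure_subset fun c hc => ?_
  have hcB : c ∈ Bd o := closure_minimal (fun c' h => h.1) (bd_compact o).isClosed hc
  refine ⟨hcB, fun t ht => ?_⟩
  obtain ⟨e, ⟨heB, heD⟩, hec⟩ := closure_near hc (2 * t) one_pos
  obtain ⟨g, h1, h2, h3⟩ := heD (2 * t) (by linarith)
  refine ⟨g, by linarith, fun y hy => ?_, fun y hy => ?_⟩
  · obtain ⟨y', hy'⟩ := (t_stew X hX).1 o (g • o) (2 * t) (by linarith) h1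
    have h4 := dir_change (q := g • o) (T := t) (A := 0) (B := 0) (K := 2) hX hcB.1 hcB.1
      (asy_self c) (by simp) (by simp) hy' (by
        have := dist_triangle y' (e (2 * t)) (c (2 * t))
        linarith [h2 y' hy']) h1 (by linarith) ht.le (by linarith) hy
    refine h4.trans ?_
    rw [div_le_iff₀ (by linarith)]
    linarith
  · have h1' : 2 * t ≤ dist o (g⁻¹ • o) := by
      rw [← dist_smul g o, smul_inv_smul, dist_comm]
      exact h1
    obtain ⟨y', hy'⟩ := (t_stew X hX).1 o (g⁻¹ • o) (2 * t) (by linarith) h1'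
    have h4 := dir_change (q := g⁻¹ • o) (T := t) (A := 0) (B := 0) (K := 2) hX hξ.1 hξ.1
      (asy_self ξ) (by simp) (by simp) hy' (by linarith [h3 y' hy']) h1' (by linarith) ht.le
      (by linarith) hy
    refine h4.trans ?_
    rw [div_le_iff₀ (by linarith)]
    linarith

lemma du_inv [ProperSpace X] [IsIsometricSMul G X] (hX : CN X) {o : X} {ξ : ℝ → X}
    (hξ : ξ ∈ Bd o) {c c' : ℝ → X} (hc : c ∈ Du G o ξ) (h : G) (hc' : c' ∈ Bd o)
    (hcc : Asy c' (fun t => h • c t)) : c' ∈ Du G o ξ := by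
  refine ⟨hc', fun t ht => ?_⟩
  obtain ⟨B, hB⟩ : ∃ B, B = dist (h • o) o := ⟨_, rfl⟩
  have hB0 : 0 ≤ B := by rw [hB]; exact dist_nonneg
  obtain ⟨T', hT'⟩ : ∃ T', T' = B + t * (1 + 2 * B) + t := ⟨_, rfl⟩
  have htB : 0 ≤ t * (1 + 2 * B) := by positivity
  have hT'0 : 0 < T' := by linarith
  obtain ⟨g, h1, h2, h3⟩ := hc.2 T' hT'0
  obtain ⟨z, hz⟩ := (t_stew X hX).1 o (g • o) T' hT'0.le h1
  have hd : dist (h • o) ((h * g) • o) = dist o (g • o) := by rw [mul_smul, dist_smul]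
  refine ⟨h * g, ?_, fun y hy => ?_, fun y hy => ?_⟩
  · have := dist_triangle (h • o) o ((h * g) • o)
    rw [hd, ← hB] at this
    linarith
  · have h4 := dir_change (o := h • o) (p := o) (q0 := (h * g) • o) (q := (h * g) • o)
      (y' := h • z) (T' := T') (T := t) (A := B) (B := 0) (K := 1) hX (ray_smul h hc.1.1) hc'.1
      hcc hB.ge (by simp) (by
        refine ⟨?_, ?_⟩
        · rw [dist_smul]; exact hz.1
        · rw [hd, mul_smul, dist_smul]; exact hz.2) (by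
        rw [dist_smul]
        exact h2 z hz) (by rw [hd]; exact h1) (by linarith) ht.le (by linarith) hy
    refine h4.trans ?_
    rw [div_le_iff₀ (by linarith)]
    linarith
  · have h1' : T' ≤ dist o (g⁻¹ • o) := by
      rw [← dist_smul g o, smul_inv_smul, dist_comm]
      exact h1
    obtain ⟨z', hz'⟩ := (t_stew X hX).1 o (g⁻¹ • o) T' hT'0.le h1'
    have h4 := dir_change (q := (h * g)⁻¹ • o) (T := t) (A := 0) (B := B) (K := 1) hX hξ.1 hξ.1
      (asy_self ξ) (by simp) (by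
        rw [mul_inv_rev, mul_smul, dist_smul, ← dist_smul h o, smul_inv_smul]
        exact hB.ge) hz' (h3 z' hz') h1' (by linarith) ht.le
      (by linarith) hy
    refine h4.trans ?_
    rw [div_le_iff₀ (by linarith)]
    nlinarith

lemma du_Inv (hG : Geo X G) {o : X} {ξ : ℝ → X} (hξ : ξ ∈ Bd o) : Inv G o (Du G o ξ) := by
  have := hG.proper
  have := hG.isom
  have hX := hG.cn
  refine ⟨fun c hc => hc.1, du_closed hX hξ, ?_, fun c hc g c' hc' hcc =>
    du_inv hX hξ hc g hc' hcc⟩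
  obtain ⟨η, -, -, hη, -, -, h1, -⟩ := t_dp X G hG o ξ ξ hξ.1 hξ.1
  obtain ⟨η', h2, h3⟩ := bd_norm hη
  refine ⟨η', h2, ?_⟩
  have h4 := dual_symm h1
  intro t ht
  obtain ⟨g, h5, h6, h7⟩ := h4 t ht
  exact ⟨g, h5, by rw [h3 t ht.le]; exact h6, h7⟩

/-- real inequality -/
lemma real_aux {D t r T : ℝ} (hD : 0 < D) (ht : 0 < t) (hT : 4 ≤ T) (hr : 0 ≤ r)
    (hr1 : r ≤ D + t) (h : (2 * T - 1) ^ 2 * (D * t) ≤ T ^ 2 * (r ^ 2 - (D - t) ^ 2)) :
    T * (t ^ 2 - (D - r) ^ 2) ≤ 16 * (D * r) := by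
  have hDt : 0 < D * t := mul_pos hD ht
  have h1 : T * ((D + t) ^ 2 - r ^ 2) ≤ 4 * (D * t) := by
    have h2 : T * (T * ((D + t) ^ 2 - r ^ 2)) ≤ T * (4 * (D * t)) := by nlinarith
    exact le_of_mul_le_mul_left h2 (by linarith)
  have h2 : t ≤ r := by
    have h3 : 4 * ((D + t) ^ 2 - r ^ 2) ≤ 4 * (D * t) := by
      have : 0 ≤ (D + t) ^ 2 - r ^ 2 := by nlinarith
      nlinarith
    have h4 : t ^ 2 ≤ r ^ 2 := by nlinarith
    exact (abs_le_of_sq_le_sq' h4 hr).2
  have h3 : 0 < D + t + r := by linarith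
  have h4 : 0 ≤ t + r - D ∨ t + r - D < 0 := le_or_gt _ _
  rcases h4 with h4 | h4
  · have h5 : (T * (t ^ 2 - (D - r) ^ 2)) * (D + t + r) ≤ (16 * (D * r)) * (D + t + r) := by
      have e : (T * (t ^ 2 - (D - r) ^ 2)) * (D + t + r) =
        (T * ((D + t) ^ 2 - r ^ 2)) * (t + r - D) := by ring
      rw [e]
      have h6 : (T * ((D + t) ^ 2 - r ^ 2)) * (t + r - D) ≤ (4 * (D * t)) * (t + r - D) :=
        mul_le_mul_of_nonneg_right h1 h4
      have h7 : (4 * (D * t)) * (t + r - D) ≤ (4 * (D * t)) * (2 * t) :=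
        mul_le_mul_of_nonneg_left (by linarith) (by linarith)
      have h8 : (D * t) * t ≤ (D * r) * (D + t + r) := by
        have h9 : D * t ≤ D * r := mul_le_mul_of_nonneg_left h2 hD.le
        exact mul_le_mul h9 (by linarith) ht.le (by positivity)
      nlinarith [mul_pos hDt ht]
    exact le_of_mul_le_mul_right h5 h3
  · have h5 : t ^ 2 - (D - r) ^ 2 ≤ 0 := by
      have e : t ^ 2 - (D - r) ^ 2 = (D + t - r) * (t + r - D) := by ring
      rw [e]
      exact mul_nonpos_of_nonneg_of_nonpos (by linarith) h4.le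
    have h6 : T * (t ^ 2 - (D - r) ^ 2) ≤ 0 :=
      mul_nonpos_of_nonneg_of_nonpos (by linarith) h5
    have h7 : 0 ≤ D * r := mul_nonneg hD.le hr
    linarith

/-- if `c` is dual to `ξ` and `c` is joined to `y` by a line then `ξ` is in the closure of the
orbit of `y` -/
theorem dual_line [ProperSpace X] [IsIsometricSMul G X] (hX : CN X) {o : X} {c ξ y : ℝ → X}
    (hc : c ∈ Du G o ξ) (hξ : ξ ∈ Bd o) {σ : ℝ → X} (hσ : Isometry σ)
    (hσc : Asy (fun t => σ (-t)) c) (hy : y ∈ Bd o) (hσy : Asy σ y) :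
    ξ ∈ closure (Orb G o y) := by
  refine mem_closure_bd hX hξ (fun e he => he.1) fun T ε hT hε => ?_
  set p := σ 0 with hp
  have hσn : Ray p (fun t => σ (-t)) := neg_ray hσ
  have hσp : Ray p σ := pos_ray hσ
  obtain ⟨A, hA⟩ : ∃ A, A = dist o p := ⟨_, rfl⟩
  have hA0 : 0 ≤ A := by rw [hA]; exact dist_nonneg
  obtain ⟨T2, hT2⟩ : ∃ T2, T2 = T + T * (2 * A + 3) / ε := ⟨_, rfl⟩
  have h0 : 0 ≤ T * (2 * A + 3) / ε := by positivity
  have hT20 : 0 < T2 := by linarith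
  obtain ⟨T1, hT1⟩ : ∃ T1, T1 = 16 * T2 ^ 2 + T2 + 4 := ⟨_, rfl⟩
  have hT21 : T2 ≤ T1 := by nlinarith [sq_nonneg T2]
  have hT1T2 : 16 * T2 ^ 2 ≤ T1 := by linarith
  have hT14 : 4 ≤ T1 := by nlinarith [sq_nonneg T2]
  obtain ⟨T', hT'⟩ : ∃ T', T' = 2 * A + T1 * (1 + 3 * A) + 1 := ⟨_, rfl⟩
  have h00 : 0 ≤ T1 * A := by positivity
  have hT'0 : 0 < T' := by nlinarith
  obtain ⟨g, hg1, hg2, hg3⟩ := hc.2 T' hT'0
  obtain ⟨z, hz⟩ := (t_stew X hX).1 o (g • o) T' hT'0.le hg1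
  have hg1' : T' ≤ dist o (g⁻¹ • o) := by
    rw [← dist_smul g o, smul_inv_smul, dist_comm]
    exact hg1
  obtain ⟨z', hz'⟩ := (t_stew X hX).1 o (g⁻¹ • o) T' hT'0.le hg1'
  -- distances
  obtain ⟨D, hD⟩ : ∃ D, D = dist p (g • p) := ⟨_, rfl⟩
  have hDT : T1 ≤ D := by
    have h1 := dist_triangle4 o p (g • p) (g • o)
    rw [dist_smul, dist_comm p o, ← hA, ← hD] at h1
    nlinarith
  have hDP : dist p (g⁻¹ • p) = D := by
    rw [hD, ← dist_smul g p (g⁻¹ • p), smul_inv_smul, dist_comm]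
  obtain ⟨y1, hy1⟩ := (t_stew X hX).1 p (g • p) T1 (by linarith) (by rw [← hD]; exact hDT)
  have e1 : dist y1 (σ (-T1)) ≤ 1 := by
    have h1 := dir_change (q := g • p) (T := T1) (A := A) (B := A) (K := 1) hX hc.1.1 hσn
      hσc hA.ge (by rw [dist_smul, hA]) hz (hg2 z hz) hg1 (by nlinarith) (by linarith)
      (by nlinarith) hy1
    refine h1.trans ?_
    rw [div_le_iff₀ (by nlinarith)]
    nlinarith
  obtain ⟨ξp, hξp, hξp'⟩ := asy_exists hX p hξ.1
  obtain ⟨y2, hy2⟩ := (t_stew X hX).1 p (g⁻¹ • p) T2 hT20.le (by rw [hDP]; linarith)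
  have e2 : dist y2 (ξp T2) ≤ 1 := by
    have h1 := dir_change (q := g⁻¹ • p) (T := T2) (A := A) (B := A) (K := 1) hX hξ.1 hξp
      hξp' hA.ge (by rw [dist_smul, hA]) hz' (hg3 z' hz') hg1' (by nlinarith) hT20.le
      (by nlinarith) hy2
    refine h1.trans ?_
    rw [div_le_iff₀ (by nlinarith)]
    nlinarith
  -- the ray from `p`
  have hr1 : Ray (g⁻¹ • p) (fun t => g⁻¹ • σ t) := ray_smul g⁻¹ hσp
  obtain ⟨f, hf, hfe⟩ := asy_exists hX p hr1
  obtain ⟨e, heB, hee⟩ := bd_exists hX o hf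
  obtain ⟨K, hK⟩ := hfe
  have hcv : Cv (atTop : Filter ℕ) p (fun n : ℕ => g⁻¹ • σ n) f := by
    refine cv_near hX hf (s := fun n : ℕ => (n : ℝ)) tendsto_natCast_atTop_atTop (K := K)
      (Eventually.of_forall fun n => ?_)
    rw [dist_comm]
    exact hK n (Nat.cast_nonneg n)
  obtain ⟨n, h1, h2, h3⟩ := ((tendsto_natCast_atTop_atTop.eventually_ge_atTop T1).and
    ((hcv.1.eventually_ge_atTop T2).and (hcv.2 T2 1 hT20.le one_pos))).exists
  obtain ⟨w, hw⟩ := (t_stew X hX).1 p (g⁻¹ • σ n) T2 hT20.le h2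
  have e3 := h3 w hw
  have hn0 : (0 : ℝ) < n := by linarith
  have e4 : dist y2 w ≤ 1 := by
    set r := dist p (g⁻¹ • σ n) with hr
    have hr' : dist (g • p) (σ n) = r := by
      rw [hr, ← dist_smul g p (g⁻¹ • σ n), smul_inv_smul]
    have hr0 : 0 ≤ r := dist_nonneg
    have h4 := (t_cmp X hX).1 p (g • p) (σ n) T1 y1 (σ T1) hy1 (on_ray hσp (by linarith) h1)
    rw [ray_dist hσp hn0.le, hr', ← hD] at h4
    have h5 : 2 * T1 - 1 ≤ dist y1 (σ T1) := by
      have h6 := dist_triangle (σ (-T1)) y1 (σ T1)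
      rw [hσ.dist_eq, Real.dist_eq, show -T1 - T1 = -(2 * T1) by ring, abs_neg,
        abs_of_nonneg (by linarith), dist_comm (σ (-T1))] at h6
      linarith
    have h6 : (2 * T1 - 1) ^ 2 * (D * n) ≤ T1 ^ 2 * (r ^ 2 - (D - n) ^ 2) := by
      refine (mul_le_mul_of_nonneg_right (pow_le_pow_left₀ (by linarith) h5 2) ?_).trans h4
      have : 0 < D := by linarith
      positivity
    have h7 : r ≤ D + n := by
      have h8 := dist_triangle (g • p) p (σ n)
      rw [dist_comm (g • p) p, ← hD, ray_dist hσp hn0.le, hr'] at h8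
      exact h8
    have h8 := real_aux (by linarith) hn0 hT14 hr0 h7 h6
    have h9 := (t_cmp X hX).1 p (g⁻¹ • p) (g⁻¹ • σ n) T2 y2 w hy2 hw
    rw [hDP, dist_smul, ray_dist hσp hn0.le, ← hr] at h9
    have h10 : 0 < D * r := mul_pos (by linarith) (by linarith)
    have h11 : dist y2 w ^ 2 * (D * r) ≤ 1 ^ 2 * (D * r) := by
      refine h9.trans ?_
      rcases le_or_gt 0 ((n : ℝ) ^ 2 - (D - r) ^ 2) with h12 | h12
      · have h13 : 16 * T2 ^ 2 * ((n : ℝ) ^ 2 - (D - r) ^ 2) ≤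
            T1 * ((n : ℝ) ^ 2 - (D - r) ^ 2) := mul_le_mul_of_nonneg_right hT1T2 h12
        linarith
      · have : T2 ^ 2 * ((n : ℝ) ^ 2 - (D - r) ^ 2) ≤ 0 :=
          mul_nonpos_of_nonneg_of_nonpos (sq_nonneg _) h12.le
        linarith
    have h12 := le_of_mul_le_mul_right h11 h10
    exact (abs_le_of_sq_le_sq' h12 zero_le_one).2
  refine ⟨e, ⟨heB, g⁻¹, hee.trans (Asy.trans ⟨K, hK⟩ (hσy.smul g⁻¹))⟩, ?_⟩
  have h4 : dist (e T2) (ξ T2) ≤ 2 * A + 3 := by
    have h5 := asy_le hX heB.1 hf hee hT20.le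
    have h6 := asy_le hX hξp hξ.1 hξp' hT20.le
    rw [← hA] at h5
    rw [dist_comm p o, ← hA] at h6
    have h7 := dist_triangle (e T2) (f T2) (ξ T2)
    have h8 := dist_triangle (f T2) w (ξ T2)
    have h9 := dist_triangle w y2 (ξ T2)
    have h10 := dist_triangle y2 (ξp T2) (ξ T2)
    rw [dist_comm (f T2) w] at h8
    rw [dist_comm w y2] at h9
    linarith
  have h5 := ray_contract hX heB.1 hξ.1 hT.le (show T ≤ T2 by linarith) hT20
  refine h5.trans ?_
  calc T / T2 * dist (e T2) (ξ T2) ≤ T / T2 * (2 * A + 3) :=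
        mul_le_mul_of_nonneg_left h4 (by positivity)
    _ ≤ ε := by
      rw [div_mul_eq_mul_div, div_le_iff₀ hT20]
      have : T * (2 * A + 3) / ε ≤ T2 := by linarith
      rw [div_le_iff₀ hε] at this
      linarith

end Pool.Agent.N53.RO
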