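import Pool.Agent.N53.RO.Dual

/-!
# Tits distances of minimal sets
-/

set_option autoImplicit false

universe u v

open Metric Set Filter Topology
open Pool.Agent.TH60.FP Pool.Agent.Y34.HB Pool.Agent.Y34.EL

namespace Pool.Agent.N53.RO

variable {X : Type u} [MetricSpace X] {G : Type v} [Group G] [MulAction G X]

/-- a minimal set `N` such that no line joins a point of `N` to a point of `ZZ o` -/
theorem exists_bad (hG : Geo X G) (o : X) {σ₀ : ℝ → X} (hσ₀ : Isometry σ₀)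
    (he : ¬ (HP σ₀).Nonempty) : ∃ N : Set (ℝ → X), Inv G o N ∧
      (∀ C', Inv G o C' → C' ⊆ N → C' = N) ∧
      ∀ σ : ℝ → X, Isometry σ → ∀ c ∈ N, Asy (fun t => σ (-t)) c → ∀ y ∈ ZZ o, ¬ Asy σ y := by
  have := hG.proper
  have := hG.isom
  have hX := hG.cn
  obtain ⟨ξ, hξ, hξσ⟩ := bd_exists hX o (neg_ray hσ₀)
  obtain ⟨N, hN1, hN2, hN3⟩ := exists_minimal (du_Inv hG hξ)
  refine ⟨N, hN2, hN3, fun σ hσ c hc hσc y hy hσy => he ?_⟩
  have h1 := dual_line hX (hN1 hc) hξ hσ hσc hy.1 hσy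
  have h2 : closure (Orb G o y) ⊆ ZZ o := closure_minimal (fun c' hc' => by
    obtain ⟨h3, k, h4⟩ := hc'
    exact zz_inv hy k h3 h4) (zz_closed hX o)
  exact (h2 h1).2 σ₀ hσ₀ hξσ.symm

lemma slope [ProperSpace X] (hX : CN X) {o : X} {c c' : ℝ → X} (hc : Ray o c) (hc' : Ray o c')
    {t₀ δ : ℝ} (ht₀ : 0 < t₀) (hδ : 0 ≤ δ) (hδ1 : δ ≤ 1 / 2)
    (h : (2 - δ) * t₀ ≤ dist (c t₀) (c' t₀)) {u v : ℝ} (hu : t₀ ≤ u) (hv : 0 ≤ v) :
    bus c' (c u) + (1 - 4 * δ) * v ≤ bus c' (c (u + v)) := by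
  have h1 : ∀ s : ℝ, t₀ ≤ s → (1 - 4 * δ) * s ≤ bus c' (c s) := by
    intro s hs
    have hs0 : 0 < s := by linarith
    refine ge_of_tendsto (bus_tend hc' (c s)) ?_
    filter_upwards [tendsto_natCast_atTop_atTop.eventually_ge_atTop t₀] with n hn
    have hn0 : (0 : ℝ) < n := by linarith
    have h2 := (t_cmp X hX).1 o (c s) (c' n) t₀ (c t₀) (c' t₀) (on_ray hc ht₀.le hs)
      (on_ray hc' ht₀.le hn)
    rw [ray_dist hc hs0.le, ray_dist hc' hn0.le] at h2
    have h3 : ((2 - δ) * t₀) ^ 2 ≤ dist (c t₀) (c' t₀) ^ 2 :=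
      pow_le_pow_left₀ (mul_nonneg (by linarith) ht₀.le) h 2
    have hsn : 0 < s * n := by positivity
    have h4 : t₀ ^ 2 * ((2 - δ) ^ 2 * (s * n)) ≤ t₀ ^ 2 * (dist (c s) (c' n) ^ 2 - (s - n) ^ 2) := by
      refine le_trans ?_ h2
      have := mul_le_mul_of_nonneg_right h3 hsn.le
      nlinarith
    have h5 := le_of_mul_le_mul_left h4 (by positivity)
    have h6 : (s + n - 4 * δ * s) ^ 2 ≤ dist (c s) (c' n) ^ 2 := by
      have h7 : 0 ≤ δ * (s * n) := by positivity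
      have h8 : 0 ≤ δ * s ^ 2 * (1 - 2 * δ) := mul_nonneg (by positivity) (by linarith)
      have h9 : 0 ≤ δ ^ 2 * (s * n) := by positivity
      nlinarith
    have h7 := (abs_le_of_sq_le_sq' h6 dist_nonneg).2
    linarith
  have hu0 : 0 < u := by linarith
  have h2 := bus_conv hX hc' (p := o) (q := c (u + v)) (y := c u) (t := u / (u + v))
    (by positivity) ((div_le_one (by linarith)).2 (by linarith)) (by
      rw [ray_dist hc (by linarith), div_mul_cancel₀ _ (by linarith)]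
      exact on_ray hc hu0.le (by linarith))
  have h3 : bus c' o = 0 := by
    have := bus_ray hc' le_rfl
    rw [hc'.1, neg_zero] at this
    exact this
  rw [h3, mul_zero, zero_add] at h2
  have h4 : (u + v) * bus c' (c u) ≤ u * bus c' (c (u + v)) := by
    have h5 := mul_le_mul_of_nonneg_left h2 (by linarith : 0 ≤ u + v)
    have e : (u + v) * (u / (u + v) * bus c' (c (u + v))) = u * bus c' (c (u + v)) := by
      field_simp
    rwa [e] at h5
  have h5 := mul_le_mul_of_nonneg_left (h1 u hu) hv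
  have h6 : u * (bus c' (c u) + (1 - 4 * δ) * v) ≤ u * bus c' (c (u + v)) := by nlinarith
  exact le_of_mul_le_mul_left h6 hu0

/-- cocompactness in the form used here -/
lemma coc (hG : Geo X G) (o : X) : ∃ D : ℝ, 0 ≤ D ∧ ∀ x : X, ∃ γ : G, dist (γ • x) o ≤ D := by
  obtain ⟨K, hK, hKG⟩ := hG.cc
  obtain ⟨D, hD⟩ := hK.isBounded.subset_closedBall o
  refine ⟨max D 0, le_max_right _ _, fun x => ?_⟩
  obtain ⟨g, hg⟩ := hKG x
  have h := hD hg
  rw [mem_closedBall] at h
  exact ⟨g, h.trans (le_max_left _ _)⟩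

lemma pt_tendsto {ι : Type*} {l : Filter ι} {c : ι → ℝ → X} {d : ℝ → X}
    (h : Tendsto c l (𝓝 d)) (t : ℝ) : Tendsto (fun i => c i t) l (𝓝 (d t)) :=
  (continuous_apply t).tendsto _ |>.comp h

/-- the Tits distances of the points of `N` and the points of `ZZ o` are bounded away from `π` -/
theorem tits_gap (hG : Geo X G) {o : X} {N : Set (ℝ → X)} (hN : Inv G o N)
    (hbad : ∀ σ : ℝ → X, Isometry σ → ∀ c ∈ N, Asy (fun t => σ (-t)) c → ∀ y ∈ ZZ o, ¬ Asy σ y) :
    ∃ ε : ℝ, 0 < ε ∧ ∀ c ∈ N, ∀ c' ∈ ZZ o, ∀ t : ℝ, 0 < t →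
      dist (c t) (c' t) ≤ (2 - ε) * t := by
  have := hG.proper
  have := hG.isom
  have hX := hG.cn
  by_contra hcon
  push Not at hcon
  obtain ⟨D, hD0, hD⟩ := coc hG o
  have h1 : ∀ n : ℕ, ∃ c ∈ N, ∃ c' ∈ ZZ o, ∃ t : ℝ, 0 < t ∧
      (2 - 1 / ((n : ℝ) + 2)) * t < dist (c t) (c' t) := by
    intro n
    obtain ⟨c, hc, c', hc', t, ht, h⟩ := hcon (1 / ((n : ℝ) + 2)) (by positivity)
    exact ⟨c, hc, c', hc', t, ht, h⟩
  choose c hcN c' hcZ t ht hct using h1
  choose g hg using fun n : ℕ => hD (c n (t n + n))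
  have hcB := fun n => hN.sub (hcN n)
  have h2 : ∀ n : ℕ, ∃ a ∈ Bd o, Asy a (fun s => g n • c n s) := fun n =>
    bd_exists hX o (ray_smul (g n) (hcB n).1)
  choose a haB ha using h2
  have haN : ∀ n, a n ∈ N := fun n => hN.inv _ (hcN n) (g n) _ (haB n) (ha n)
  have h3 : ∀ n : ℕ, ∃ q ∈ Bd o, Asy q (fun s => g n • c' n s) := fun n =>
    bd_exists hX o (ray_smul (g n) (hcZ n).1.1)
  choose q hqB hq using h3
  have hqZ : ∀ n, q n ∈ ZZ o := fun n => zz_inv (hcZ n) (g n) (hqB n) (hq n)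
  -- limits
  obtain ⟨a', ha'N, ha'⟩ := ((bd_compact o).of_isClosed_subset hN.closed hN.sub).ultrafilter_le_nhds
    ((hyperfilter ℕ).map a) (by
      rw [le_principal_iff]
      exact (Eventually.of_forall haN : ∀ᶠ n in (hyperfilter ℕ : Filter ℕ), a n ∈ N))
  have ha'' : Tendsto a (hyperfilter ℕ : Filter ℕ) (𝓝 a') := ha'
  obtain ⟨q', hq'Z, hq'⟩ := ((bd_compact o).of_isClosed_subset (zz_closed hX o)
    fun c h => h.1).ultrafilter_le_nhds ((hyperfilter ℕ).map q) (by
      rw [le_principal_iff]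
      exact (Eventually.of_forall hqZ : ∀ᶠ n in (hyperfilter ℕ : Filter ℕ), q n ∈ ZZ o))
  have hq'' : Tendsto q (hyperfilter ℕ : Filter ℕ) (𝓝 q') := hq'
  set e : ℕ → ℝ → X := fun n v => g n • c n (max (t n + n + v) 0) with he
  have hsn : ∀ n : ℕ, 0 ≤ t n + n := fun n => add_nonneg (ht n).le (Nat.cast_nonneg n)
  have he0 : ∀ n, dist (e n 0) o ≤ D := by
    intro n
    show dist (g n • c n (max (t n + n + 0) 0)) o ≤ D
    rw [add_zero, max_eq_left (hsn n)]
    exact hg n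
  have hcomp : IsCompact (Set.pi univ fun v : ℝ => closedBall o (|v| + D)) :=
    isCompact_univ_pi fun v => isCompact_closedBall _ _
  obtain ⟨ℓ, -, hℓ⟩ := hcomp.ultrafilter_le_nhds ((hyperfilter ℕ).map e) (by
    rw [le_principal_iff]
    refine (Eventually.of_forall fun n => ?_ : ∀ᶠ n in (hyperfilter ℕ : Filter ℕ),
      e n ∈ Set.pi univ fun v : ℝ => closedBall o (|v| + D))
    rw [Set.mem_univ_pi]
    intro v
    rw [mem_closedBall]
    have h4 := dist_triangle (e n v) (e n 0) o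
    have h5 : dist (e n v) (e n 0) ≤ |v| := by
      show dist (g n • c n (max (t n + n + v) 0)) (g n • c n (max (t n + n + 0) 0)) ≤ |v|
      rw [dist_smul, (hcB n).1.2 _ _ (le_max_right _ _) (le_max_right _ _)]
      refine (abs_max_sub_max_le_abs _ _ _).trans ?_
      rw [show t n + n + v - (t n + n + 0) = v by ring]
    linarith [he0 n])
  have hℓ' : ∀ v, Tendsto (fun n => e n v) (hyperfilter ℕ : Filter ℕ) (𝓝 (ℓ v)) :=
    fun v => pt_tendsto (show Tendsto e _ _ from hℓ) v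
  have hev : ∀ v : ℝ, ∀ᶠ n : ℕ in (hyperfilter ℕ : Filter ℕ), |v| ≤ (n : ℝ) := fun v =>
    Nat.hyperfilter_le_atTop (tendsto_natCast_atTop_atTop.eventually_ge_atTop _)
  have hev' : ∀ v : ℝ, ∀ n : ℕ, |v| ≤ (n : ℝ) → e n v = g n • c n (t n + n + v) ∧
      t n ≤ t n + n + v := by
    intro v n hn
    have h4 := neg_abs_le v
    have h5 := (ht n).le
    refine ⟨?_, by linarith⟩
    show g n • c n (max (t n + n + v) 0) = _
    rw [max_eq_left (by linarith)]
  have hiso : Isometry ℓ := by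
    refine Isometry.of_dist_eq fun v w => ?_
    refine tendsto_nhds_unique ((hℓ' v).dist (hℓ' w)) ?_
    refine tendsto_const_nhds.congr' ?_
    filter_upwards [hev v, hev w] with n hn hn'
    obtain ⟨h4, h5⟩ := hev' v n hn
    obtain ⟨h6, h7⟩ := hev' w n hn'
    have h8 := (ht n).le
    rw [h4, h6, dist_smul, (hcB n).1.2 _ _ (by linarith) (by linarith), Real.dist_eq]
    congr 1
    ring
  -- the ends of `ℓ`
  have hend1 : Asy ℓ a' := by
    refine ⟨D, fun v hv => ?_⟩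
    refine le_of_tendsto ((hℓ' v).dist (pt_tendsto ha'' v)) ((hev v).mono fun n hn => ?_)
    obtain ⟨h4, h5⟩ := hev' v n hn
    rw [h4]
    have h6 : Ray (g n • c n (t n + n)) (fun w => g n • c n (t n + n + w)) := by
      refine ⟨by show g n • c n (t n + n + 0) = _; rw [add_zero], fun s s' hs hs' => ?_⟩
      rw [dist_smul, (hcB n).1.2 _ _ (by linarith [hsn n]) (by linarith [hsn n])]
      congr 1
      ring
    have h7 : Asy (fun w => g n • c n (t n + n + w)) (a n) := by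
      obtain ⟨K, hK⟩ := ha n
      refine ⟨(t n + n) + K, fun w hw => ?_⟩
      have h8 := dist_triangle (g n • c n (t n + n + w)) (g n • c n w) (a n w)
      rw [dist_smul, (hcB n).1.2 _ _ (by linarith [hsn n]) hw,
        show t n + n + w - w = t n + n by ring, abs_of_nonneg (hsn n)] at h8
      have h9 := hK w hw
      rw [dist_comm] at h9
      linarith
    exact (asy_le hX h6 (haB n).1 h7 hv).trans (hg n)
  have hend2 : Asy (fun v => ℓ (-v)) q' := by
    refine bus_grad hX hq'Z.1.1 (neg_ray hiso) fun T hT => ?_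
    show bus q' (ℓ (-T)) ≤ bus q' (ℓ 0) - T
    have hl1 : ∀ v : ℝ, Tendsto (fun n => bus (q n) (e n v)) (hyperfilter ℕ : Filter ℕ)
        (𝓝 (bus q' (ℓ v))) := fun v =>
      bus_lim hX (Eventually.of_forall fun n => (hqB n).1) hq'Z.1.1
        (fun s _ => pt_tendsto hq'' s) (hℓ' v)
    have hl2 : Tendsto (fun n : ℕ => (1 - 4 * (1 / ((n : ℝ) + 2))) * T)
        (hyperfilter ℕ : Filter ℕ) (𝓝 ((1 - 4 * 0) * T)) := by
      refine Tendsto.mono_left ?_ Nat.hyperfilter_le_atTop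
      refine Tendsto.mul_const T (tendsto_const_nhds.sub (Tendsto.const_mul 4 ?_))
      have h4 := (tendsto_add_atTop_iff_nat 2).2 (tendsto_const_div_atTop_nhds_zero_nat (1 : ℝ))
      refine h4.congr fun n => ?_
      push_cast
      rfl
    have h4 := le_of_tendsto_of_tendsto ((hl1 (-T)).add hl2) (hl1 0) (by
      filter_upwards [hev (-T), hev 0] with n hn hn'
      obtain ⟨h5, h6⟩ := hev' (-T) n hn
      obtain ⟨h7, h8⟩ := hev' 0 n hn'
      have hn2 : (1 : ℝ) / (n + 2) ≤ 1 / 2 := by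
        apply one_div_le_one_div_of_le <;> [norm_num; linarith [Nat.cast_nonneg (α := ℝ) n]]
      have h9 := slope hX (hcB n).1 (hcZ n).1.1 (ht n) (by positivity) hn2 (hct n).le h6 hT
      have h10 := bus_equi hX (g n) (hcZ n).1.1 (hqB n).1 (hq n) (c n (t n + n + 0))
        (c n (t n + n + -T))
      have e1 : t n + n + -T + T = t n + n + 0 := by ring
      rw [e1] at h9
      show bus (q n) (e n (-T)) + (1 - 4 * (1 / ((n : ℝ) + 2))) * T ≤ bus (q n) (e n 0)
      rw [h5, h7]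
      linarith)
    linarith
  refine hbad (fun v => ℓ (-v)) (neg_isom hiso) a' ha'N ?_ q' hq'Z hend2
  show Asy (fun v => ℓ (- -v)) a'
  simp_rw [neg_neg]
  exact hend1

end Pool.Agent.N53.RO
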