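import Pool.Agent.N53.RO.Far

/-!
# Closed invariant sets at infinity and flats of maximal dimension
-/

set_option autoImplicit false

universe u v

open Metric Set Filter Topology
open Pool.Agent.TH60.FP Pool.Agent.Y34.HB Pool.Agent.Y34.EL

namespace Pool.Agent.N53.RO

/-! ### convex functions on the line -/

lemma mono_diff {φ : ℝ → ℝ}
    (h : ∀ x y t : ℝ, 0 ≤ t → t ≤ 1 → φ ((1 - t) * x + t * y) ≤ (1 - t) * φ x + t * φ y)
    {s : ℝ} (hs : 0 ≤ s) : Monotone (fun x => φ (x + s) - φ x) := by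
  intro x y hxy
  show φ (x + s) - φ x ≤ φ (y + s) - φ y
  rcases (add_nonneg (sub_nonneg.2 hxy) hs).eq_or_lt with h0 | h0
  · have h1 : x = y := by linarith
    rw [h1]
  · have h1 := h x (y + s) (s / (y - x + s)) (by positivity)
      ((div_le_one h0).2 (by linarith))
    have h2 := h x (y + s) ((y - x) / (y - x + s)) (div_nonneg (by linarith) h0.le)
      ((div_le_one h0).2 (by linarith))
    have e1 : (1 - s / (y - x + s)) * x + s / (y - x + s) * (y + s) = x + s := by
      field_simp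
      ring
    have e2 : (1 - (y - x) / (y - x + s)) * x + (y - x) / (y - x + s) * (y + s) = y := by
      field_simp
      ring
    rw [e1] at h1
    rw [e2] at h2
    have e3 : s / (y - x + s) + (y - x) / (y - x + s) = 1 := by
      field_simp
      ring
    generalize s / (y - x + s) = α at *
    generalize (y - x) / (y - x + s) = β at *
    have e4 : β = 1 - α := by linarith
    subst e4
    nlinarith

/-- translating a convex Lipschitz function to infinity makes it affine -/
lemma diff_lim {φ : ℝ → ℝ}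
    (h : ∀ x y t : ℝ, 0 ≤ t → t ≤ 1 → φ ((1 - t) * x + t * y) ≤ (1 - t) * φ x + t * φ y)
    {C : ℝ} (hC : ∀ x y, |φ x - φ y| ≤ C * |x - y|) {s : ℝ} (hs : 0 ≤ s) :
    ∃ lam : ℝ, ∀ x : ℝ, Tendsto (fun j : ℕ => φ (j + x + s) - φ (j + x))
      (hyperfilter ℕ : Filter ℕ) (𝓝 lam) := by
  have h1 : BddAbove (Set.range fun x => φ (x + s) - φ x) := by
    refine ⟨C * |s|, ?_⟩
    rintro _ ⟨x, rfl⟩
    have := (le_abs_self _).trans (hC (x + s) x)
    rwa [show x + s - x = s by ring] at this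
  have h2 := tendsto_atTop_ciSup (mono_diff h hs) h1
  refine ⟨⨆ x : ℝ, (φ (x + s) - φ x), fun x => ?_⟩
  exact (h2.comp (tendsto_atTop_add_const_right _ x tendsto_natCast_atTop_atTop)).mono_left
    Nat.hyperfilter_le_atTop

lemma additive_linear {ψ : ℝ → ℝ} (h : ∀ x s : ℝ, ψ (x + s) - ψ x = ψ s - ψ 0)
    (hc : Continuous ψ) : ∀ s : ℝ, ψ s = ψ 0 + (ψ 1 - ψ 0) * s := by
  let A : ℝ →+ ℝ :=
    { toFun := fun x => ψ x - ψ 0
      map_zero' := sub_self _
      map_add' := fun x y => by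
        show ψ (x + y) - ψ 0 = (ψ x - ψ 0) + (ψ y - ψ 0)
        linarith [h x y] }
  have hA : Continuous A := hc.sub continuous_const
  intro s
  have h1 := (A.toRealLinearMap hA).map_smul s 1
  have h2 : A s = s * A 1 := by simpa using h1
  have h3 : ψ s - ψ 0 = s * (ψ 1 - ψ 0) := h2
  linarith

variable {X : Type u} [MetricSpace X] {G : Type v} [Group G] [MulAction G X]

/-- the Busemann function of `a` is affine on the flat `F` in the direction `e` -/
def Aff {n : ℕ} (a : ℝ → X) (F : E n → X) (e : E n) : Prop :=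
  ∃ μ : ℝ, ∀ (v : E n) (s : ℝ), bus a (F (v + s • e)) = bus a (F v) + μ * s

lemma bus_flat_conv [ProperSpace X] (hX : CN X) {n : ℕ} {o : X} {a : ℝ → X} (ha : Ray o a)
    {F : E n → X} (hF : Isometry F) (v e : E n) (x y t : ℝ) (ht : 0 ≤ t) (ht1 : t ≤ 1) :
    bus a (F (v + ((1 - t) * x + t * y) • e)) ≤
      (1 - t) * bus a (F (v + x • e)) + t * bus a (F (v + y • e)) := by
  refine bus_conv hX ha ht ht1 ⟨?_, ?_⟩
  · rw [hF.dist_eq, hF.dist_eq, dist_eq_norm, dist_eq_norm]
    have e1 : v + x • e - (v + ((1 - t) * x + t * y) • e) = t • (v + x • e - (v + y • e)) := by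
      module
    rw [e1, norm_smul, Real.norm_eq_abs, abs_of_nonneg ht]
  · rw [hF.dist_eq, hF.dist_eq, dist_eq_norm, dist_eq_norm]
    have e1 : v + ((1 - t) * x + t * y) • e - (v + y • e) =
        (1 - t) • (v + x • e - (v + y • e)) := by
      module
    rw [e1, norm_smul, Real.norm_eq_abs, abs_of_nonneg (by linarith)]
    ring

lemma step (hG : Geo X G) {n : ℕ} {o : X} {N : Set (ℝ → X)} (hN : Inv G o N)
    {L : Set (E n → X)} (hL : Fam G L) {F : E n → X} (hF : F ∈ L) {a : ℝ → X} (ha : a ∈ N)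
    (e : E n) : ∃ F' ∈ L, ∃ a' ∈ N, Aff a' F' e ∧ ∀ e', Aff a F e' → Aff a' F' e' := by
  have := hG.proper
  have := hG.isom
  have hX := hG.cn
  obtain ⟨D, hD0, hD⟩ := coc hG o
  choose g hg using fun j : ℕ => hD (F ((j : ℝ) • e))
  set f : ℕ → E n → X := fun j v => g j • F ((j : ℝ) • e + v) with hf
  have hfL : ∀ j, f j ∈ L := fun j => hL.smul _ (hL.trans F hF ((j : ℝ) • e)) (g j)
  have haB := hN.sub ha
  have h1 : ∀ j : ℕ, ∃ b ∈ Bd o, Asy b (fun s => g j • a s) := fun j =>
    bd_exists hX o (ray_smul (g j) haB.1)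
  choose b hbB hb using h1
  have hbN : ∀ j, b j ∈ N := fun j => hN.inv _ ha (g j) _ (hbB j) (hb j)
  obtain ⟨a', ha'N, ha'⟩ := ((bd_compact o).of_isClosed_subset hN.closed hN.sub).ultrafilter_le_nhds
    ((hyperfilter ℕ).map b) (by
      rw [le_principal_iff]
      exact (Eventually.of_forall hbN : ∀ᶠ n in (hyperfilter ℕ : Filter ℕ), b n ∈ N))
  have ha'' : Tendsto b (hyperfilter ℕ : Filter ℕ) (𝓝 a') := ha'
  have hcomp : IsCompact (Set.pi univ fun v : E n => closedBall o (‖v‖ + D)) :=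
    isCompact_univ_pi fun v => isCompact_closedBall _ _
  obtain ⟨F', -, hF'⟩ := hcomp.ultrafilter_le_nhds ((hyperfilter ℕ).map f) (by
    rw [le_principal_iff]
    refine (Eventually.of_forall fun j => ?_ : ∀ᶠ j in (hyperfilter ℕ : Filter ℕ),
      f j ∈ Set.pi univ fun v : E n => closedBall o (‖v‖ + D))
    rw [Set.mem_univ_pi]
    intro v
    rw [mem_closedBall]
    have h4 := dist_triangle (f j v) (f j 0) o
    have h5 : dist (f j v) (f j 0) = ‖v‖ := by
      rw [(hL.isom _ (hfL j)).dist_eq, dist_zero_right]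
    have h6 : dist (f j 0) o ≤ D := by
      show dist (g j • F ((j : ℝ) • e + 0)) o ≤ D
      rw [add_zero]
      exact hg j
    linarith)
  have hF'' : Tendsto f (hyperfilter ℕ : Filter ℕ) (𝓝 F') := hF'
  have hF'L : F' ∈ L := hL.closed.mem_of_tendsto hF'' (Eventually.of_forall hfL)
  have hF'v : ∀ v, Tendsto (fun j => f j v) (hyperfilter ℕ : Filter ℕ) (𝓝 (F' v)) :=
    fun v => (continuous_apply v).tendsto _ |>.comp hF''
  -- the limit of the Busemann functions
  have hlim : ∀ v w, Tendsto (fun j : ℕ => bus a (F ((j : ℝ) • e + v)) -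
      bus a (F ((j : ℝ) • e + w))) (hyperfilter ℕ : Filter ℕ)
      (𝓝 (bus a' (F' v) - bus a' (F' w))) := by
    intro v w
    have h2 : ∀ v, Tendsto (fun j => bus (b j) (f j v)) (hyperfilter ℕ : Filter ℕ)
        (𝓝 (bus a' (F' v))) := fun v =>
      bus_lim hX (Eventually.of_forall fun j => (hbB j).1) (hN.sub ha'N).1
        (fun s _ => pt_tendsto ha'' s) (hF'v v)
    refine ((h2 v).sub (h2 w)).congr fun j => ?_
    exact bus_equi hX (g j) haB.1 (hbB j).1 (hb j) _ _
  refine ⟨F', hF'L, a', ha'N, ?_, ?_⟩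
  · -- affine in direction `e`
    have hFi := hL.isom F hF
    have hlip : ∀ (v : E n) (x y : ℝ), |bus a (F (v + x • e)) - bus a (F (v + y • e))| ≤
        ‖e‖ * |x - y| := by
      intro v x y
      refine (bus_lip haB.1 _ _).trans ?_
      rw [hFi.dist_eq, dist_eq_norm, show v + x • e - (v + y • e) = (x - y) • e by module,
        norm_smul, Real.norm_eq_abs, mul_comm]
    have hadd0 : ∀ (v : E n) (s : ℝ), 0 ≤ s → ∀ x : ℝ,
        bus a' (F' (v + (x + s) • e)) - bus a' (F' (v + x • e)) =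
        bus a' (F' (v + s • e)) - bus a' (F' (v + (0 : ℝ) • e)) := by
      intro v s hs x
      obtain ⟨lam, hlam⟩ := diff_lim (φ := fun x => bus a (F (v + x • e)))
        (fun x y t ht ht1 => bus_flat_conv hX haB.1 hFi v e x y t ht ht1) (hlip v) hs
      have h2 : ∀ x : ℝ, bus a' (F' (v + (x + s) • e)) - bus a' (F' (v + x • e)) = lam := by
        intro x
        refine tendsto_nhds_unique (hlim _ _) ((hlam x).congr fun j => ?_)
        show bus a (F (v + ((j : ℝ) + x + s) • e)) - bus a (F (v + ((j : ℝ) + x) • e)) = _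
        congr 3 <;> module
      have h3 := h2 0
      rw [zero_add] at h3
      rw [h2 x, h3]
    have hadd : ∀ (v : E n) (x s : ℝ),
        bus a' (F' (v + (x + s) • e)) - bus a' (F' (v + x • e)) =
        bus a' (F' (v + s • e)) - bus a' (F' (v + (0 : ℝ) • e)) := by
      intro v x s
      rcases le_total 0 s with hs | hs
      · exact hadd0 v s hs x
      · have h2 := hadd0 v (-s) (by linarith) (x + s)
        have h3 := hadd0 v (-s) (by linarith) s
        rw [show x + s + -s = x by ring] at h2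
        rw [show s + -s = (0 : ℝ) by ring] at h3
        linarith
    have hF'i := hL.isom F' hF'L
    have ha'B := hN.sub ha'N
    have hcont : ∀ v : E n, Continuous fun x : ℝ => bus a' (F' (v + x • e)) := by
      intro v
      have h2 : LipschitzWith ‖e‖₊ fun x : ℝ => bus a' (F' (v + x • e)) := by
        refine LipschitzWith.of_dist_le_mul fun x y => ?_
        rw [Real.dist_eq]
        refine (bus_lip ha'B.1 _ _).trans ?_
        rw [hF'i.dist_eq, dist_eq_norm, show v + x • e - (v + y • e) = (x - y) • e by module,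
          norm_smul, Real.norm_eq_abs, mul_comm, Real.dist_eq, coe_nnnorm]
      exact h2.continuous
    have hlin := fun v => additive_linear (hadd v) (hcont v)
    obtain ⟨μ, hμ⟩ : ∃ μ : E n → ℝ, ∀ v s, bus a' (F' (v + s • e)) = bus a' (F' v) + μ v * s := by
      refine ⟨fun v => bus a' (F' (v + (1 : ℝ) • e)) - bus a' (F' (v + (0 : ℝ) • e)),
        fun v s => ?_⟩
      have h2 := hlin v s
      simp only [zero_smul, add_zero] at h2 ⊢
      exact h2
    refine ⟨μ 0, fun v s => ?_⟩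
    have h2 : μ v = μ 0 := by
      by_contra hne
      have h3 : 0 < |μ v - μ 0| := abs_pos.2 (sub_ne_zero.2 hne)
      obtain ⟨s, hs⟩ : ∃ s : ℝ, s = (2 * ‖v‖ + 1) / |μ v - μ 0| := ⟨_, rfl⟩
      have hs0 : 0 < s := by rw [hs]; positivity
      have h4 := bus_lip ha'B.1 (F' (v + s • e)) (F' (0 + s • e))
      have h5 := bus_lip ha'B.1 (F' v) (F' 0)
      rw [hF'i.dist_eq, dist_eq_norm, show v + s • e - (0 + s • e) = v by module,
        hμ v s, hμ 0 s] at h4
      rw [hF'i.dist_eq, dist_zero_right] at h5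
      have h6 : |(μ v - μ 0) * s| ≤ 2 * ‖v‖ := by
        have e1 : (μ v - μ 0) * s = (bus a' (F' v) + μ v * s - (bus a' (F' 0) + μ 0 * s)) -
          (bus a' (F' v) - bus a' (F' 0)) := by ring
        rw [e1]
        refine (abs_sub _ _).trans ?_
        linarith
      rw [abs_mul, abs_of_pos hs0, hs, mul_div_cancel₀ _ h3.ne'] at h6
      linarith
    rw [hμ v s, h2]
  · rintro e' ⟨μ, hμ⟩
    refine ⟨μ, fun v s => ?_⟩
    have h2 : bus a' (F' (v + s • e')) - bus a' (F' v) = μ * s := by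
      refine tendsto_nhds_unique (hlim _ _) (tendsto_const_nhds.congr fun j => ?_)
      rw [← add_assoc, hμ]
      ring
    linarith

lemma affine_exists (hG : Geo X G) {n : ℕ} {o : X} {N : Set (ℝ → X)} (hN : Inv G o N)
    {L : Set (E n → X)} (hL : Fam G L) (hne : L.Nonempty) :
    ∃ F ∈ L, ∃ a ∈ N, ∃ w : E n, ∀ v : E n, bus a (F v) = bus a (F 0) + inner ℝ w v := by
  have h1 : ∀ k : ℕ, ∃ F ∈ L, ∃ a ∈ N, ∀ i : Fin n, (i : ℕ) < k →
      Aff a F (EuclideanSpace.single i (1 : ℝ)) := by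
    intro k
    induction k with
    | zero =>
      obtain ⟨F, hF⟩ := hne
      obtain ⟨a, ha⟩ := hN.ne
      exact ⟨F, hF, a, ha, fun i hi => absurd hi (Nat.not_lt_zero _)⟩
    | succ k ih =>
      obtain ⟨F, hF, a, ha, h⟩ := ih
      by_cases hk : k < n
      · obtain ⟨F', hF', a', ha', h2, h3⟩ := step hG hN hL hF ha
          (EuclideanSpace.single (⟨k, hk⟩ : Fin n) (1 : ℝ))
        refine ⟨F', hF', a', ha', fun i hi => ?_⟩
        rcases Nat.lt_succ_iff_lt_or_eq.1 hi with h4 | h4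
        · exact h3 _ (h i h4)
        · have : i = ⟨k, hk⟩ := Fin.ext h4
          rw [this]
          exact h2
      · exact ⟨F, hF, a, ha, fun i _ => h i (lt_of_lt_of_le i.2 (not_lt.1 hk))⟩
  obtain ⟨F, hF, a, ha, h⟩ := h1 n
  have h2 : ∀ i : Fin n, ∃ μ : ℝ, ∀ (v : E n) (s : ℝ),
      bus a (F (v + s • EuclideanSpace.single i (1 : ℝ))) = bus a (F v) + μ * s :=
    fun i => h i i.2
  choose μ hμ using h2
  refine ⟨F, hF, a, ha, WithLp.toLp 2 μ, fun v => ?_⟩
  have h3 : ∀ s : Finset (Fin n), bus a (F (∑ i ∈ s, v i • EuclideanSpace.single i (1 : ℝ))) =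
      bus a (F 0) + ∑ i ∈ s, μ i * v i := by
    classical
    intro s
    induction s using Finset.induction_on with
    | empty => simp
    | insert i s hi ih =>
      rw [Finset.sum_insert hi, Finset.sum_insert hi, add_comm (v i • _), hμ, ih]
      ring
  have h4 : v = ∑ i, v i • EuclideanSpace.single i (1 : ℝ) := by
    ext j
    simp [Pi.single_apply]
  have h5 := h3 Finset.univ
  rw [← h4] at h5
  rw [h5]
  congr 1
  simp [PiLp.inner_apply, mul_comm]

/-! ### half-spaces -/

/-- comparison for a ray and a point -/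
lemma upper [ProperSpace X] (hX : CN X) {o p x : X} {a r : ℝ → X} (ha : Ray o a) (hr : Ray p r)
    (hra : Asy r a) {s : ℝ} (hs : 0 ≤ s) :
    dist (r s) x ^ 2 ≤ dist p x ^ 2 + s ^ 2 - 2 * s * (bus a p - bus a x) := by
  have h1 : bus r x = bus a x - bus a p := by
    have h2 := bus_asy hX ha hr hra x p
    have h3 := bus_ray hr le_rfl
    rw [hr.1, neg_zero] at h3
    linarith
  have h2 : Tendsto (fun n : ℕ => dist p x ^ 2 + 2 * s * (dist x (r n) - n) +
      s * (dist x (r n) - n) ^ 2 * (1 / (n : ℝ)) + s ^ 2) atTop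
      (𝓝 (dist p x ^ 2 + 2 * s * bus r x + s * bus r x ^ 2 * 0 + s ^ 2)) := by
    have h3 := bus_tend hr x
    exact ((tendsto_const_nhds.add (h3.const_mul (2 * s))).add
      (((h3.pow 2).const_mul s).mul tendsto_one_div_atTop_nhds_zero_nat)).add
      tendsto_const_nhds
  have h3 : dist (r s) x ^ 2 ≤ dist p x ^ 2 + 2 * s * bus r x + s * bus r x ^ 2 * 0 + s ^ 2 := by
    refine ge_of_tendsto h2 ?_
    filter_upwards [tendsto_natCast_atTop_atTop.eventually_ge_atTop s,
      eventually_gt_atTop 0] with n hn hn0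
    have hn' : (0 : ℝ) < n := Nat.cast_pos.2 hn0
    have h4 := (t_stew X hX).2.2 p (r n) s (r s) (on_ray hr hs hn) x
    rw [ray_dist hr hn'.le] at h4
    obtain ⟨β, hβ⟩ : ∃ β, β = dist x (r n) - n := ⟨_, rfl⟩
    have hd : dist x (r n) = n + β := by linarith
    rw [← hβ]
    rw [hd] at h4
    rw [dist_comm (r s) x, dist_comm p x]
    have h5 : (n : ℝ) * dist x (r s) ^ 2 ≤ n * (dist x p ^ 2 + 2 * s * β +
        s * β ^ 2 * (1 / (n : ℝ)) + s ^ 2) := by
      have e : (n : ℝ) * (dist x p ^ 2 + 2 * s * β + s * β ^ 2 * (1 / (n : ℝ)) + s ^ 2) =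
          n * dist x p ^ 2 + 2 * s * β * n + s * β ^ 2 + s ^ 2 * n := by
        field_simp
      rw [e]
      nlinarith [mul_nonneg hs (sq_nonneg (dist x p))]
    exact le_of_mul_le_mul_left h5 hn'
  rw [h1] at h3
  linarith

/-- midpoints -/
lemma cn_mid (hX : CN X) {p q z : X} (h1 : dist p z = dist p q / 2) (h2 : dist q z = dist p q / 2)
    (x : X) : dist x z ^ 2 ≤ (dist x p ^ 2 + dist x q ^ 2) / 2 - dist p q ^ 2 / 4 := by
  obtain ⟨m, hm⟩ := hX p q
  have h3 := hm z
  rw [dist_comm z p, dist_comm z q, h1, h2] at h3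
  have h4 : dist z m ^ 2 ≤ 0 := by nlinarith
  have h5 : dist z m = 0 := by
    have := sq_nonneg (dist z m)
    have h6 : dist z m ^ 2 = 0 := le_antisymm h4 this
    exact pow_eq_zero_iff two_ne_zero |>.1 h6
  rw [dist_eq_zero.1 h5]
  exact hm x

/-- the weak quadrilateral inequality -/
lemma quad (hX : CN X) (x y z w : X) :
    dist x z ^ 2 + dist y w ^ 2 ≤ dist x y ^ 2 + dist y z ^ 2 + dist z w ^ 2 + dist w x ^ 2 := by
  obtain ⟨m, hm⟩ := hX x z
  have h1 := hm y
  have h2 := hm w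
  have h3 := dist_triangle y m w
  rw [dist_comm m w] at h3
  rw [dist_comm y x] at h1
  rw [dist_comm w z] at h2
  have h4 : dist y w ^ 2 ≤ (dist y m + dist w m) ^ 2 := pow_le_pow_left₀ dist_nonneg h3 2
  nlinarith [sq_nonneg (dist y m - dist w m)]

section flat

variable {n : ℕ}

lemma flat_eq [ProperSpace X] (hX : CN X) {o : X} {a : ℝ → X} (ha : Ray o a) {F : E n → X}
    (hF : Isometry F) {w : E n} {b : ℝ} (hw : ∀ v, bus a (F v) = b + inner ℝ w v)
    {v v' : E n} {r : ℝ → X} (hr : Ray (F v) r) (hra : Asy r a) {s : ℝ} (hs : 0 ≤ s) :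
    dist (r s) (F v') ^ 2 = ‖v - v'‖ ^ 2 + s ^ 2 - 2 * s * inner ℝ w (v - v') := by
  have h0 : ∀ u : E n, dist (r s) (F u) ^ 2 ≤
      ‖v - u‖ ^ 2 + s ^ 2 - 2 * s * inner ℝ w (v - u) := by
    intro u
    have h1 := upper hX (x := F u) ha hr hra hs
    rw [hF.dist_eq, dist_eq_norm, hw, hw] at h1
    rw [inner_sub_right]
    linarith
  refine le_antisymm (h0 v') ?_
  obtain ⟨v'', hv''⟩ : ∃ v'' : E n, v'' = v + (v - v') := ⟨_, rfl⟩
  have e1 : dist (F v') (F v'') = 2 * ‖v - v'‖ := by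
    rw [hF.dist_eq, dist_eq_norm, hv'', show v' - (v + (v - v')) = (-2 : ℝ) • (v - v') by module,
      norm_smul]
    norm_num
  have h1 := cn_mid hX (p := F v') (q := F v'') (z := F v) (by
    rw [e1, hF.dist_eq, dist_eq_norm, norm_sub_rev]
    ring) (by
    rw [e1, hF.dist_eq, dist_eq_norm, hv'', show v + (v - v') - v = v - v' by module]
    ring) (r s)
  rw [e1, dist_comm (r s) (F v), ray_dist hr hs] at h1
  have h2 := h0 v''
  rw [hv'', show v - (v + (v - v')) = -(v - v') by module, norm_neg, inner_neg_right] at h2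
  rw [hv''] at h1
  linarith

lemma flat_iso [ProperSpace X] (hX : CN X) {o : X} {a : ℝ → X} (ha : Ray o a) {F : E n → X}
    (hF : Isometry F) {w : E n} {b : ℝ} (hw : ∀ v, bus a (F v) = b + inner ℝ w v)
    {v v' : E n} {r r' : ℝ → X} (hr : Ray (F v) r) (hra : Asy r a) (hr' : Ray (F v') r')
    (hra' : Asy r' a) {s : ℝ} (hs : 0 ≤ s) : dist (r s) (r' s) = ‖v - v'‖ := by
  have h1 := asy_le hX hr hr' (hra.trans hra'.symm) hs
  rw [hF.dist_eq, dist_eq_norm] at h1
  refine le_antisymm h1 ?_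
  have h2 := flat_eq hX ha hF hw (v' := v') hr hra hs
  have h3 := flat_eq hX ha hF hw (v' := v) hr' hra' hs
  have h4 := quad hX (r s) (r' s) (F v') (F v)
  rw [h2, h3, dist_comm (r' s) (F v'), ray_dist hr' hs, hF.dist_eq, dist_eq_norm,
    ray_dist hr hs, norm_sub_rev v' v, show v' - v = -(v - v') by module, inner_neg_right] at h4
  have h5 : ‖v - v'‖ ^ 2 ≤ dist (r s) (r' s) ^ 2 := by linarith
  exact (abs_le_of_sq_le_sq' h5 dist_nonneg).2

lemma flat_form [ProperSpace X] (hX : CN X) {o : X} {a : ℝ → X} (ha : Ray o a) {F : E n → X}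
    (hF : Isometry F) {w : E n} {b : ℝ} (hw : ∀ v, bus a (F v) = b + inner ℝ w v)
    {r : E n → ℝ → X} (hr : ∀ v, Ray (F v) (r v)) (hra : ∀ v, Asy (r v) a) (v v' : E n)
    {s s' : ℝ} (hs : 0 ≤ s) (hs' : 0 ≤ s') : dist (r v s) (r v' s') ^ 2 =
      ‖v - v'‖ ^ 2 + (s - s') ^ 2 - 2 * (s - s') * inner ℝ w (v - v') := by
  wlog h : s' ≤ s generalizing v v' s s'
  · have h1 := this v' v hs' hs (le_of_not_ge h)
    rw [dist_comm, h1, norm_sub_rev, show v - v' = -(v' - v) by module, inner_neg_right]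
    ring
  have h1 : Isometry (fun u => r u s') := Isometry.of_dist_eq fun u u' => by
    rw [flat_iso hX ha hF hw (hr u) (hra u) (hr u') (hra u') hs', dist_eq_norm]
  have h2 : ∀ u, bus a (r u s') = (b - s') + inner ℝ w u := by
    intro u
    have h3 := bus_asy hX ha (hr u) (hra u) (r u s') (r u 0)
    rw [bus_ray (hr u) hs', bus_ray (hr u) le_rfl, (hr u).1, hw u] at h3
    linarith
  have h3 : Ray (r v s') (fun t => r v (s' + t)) := by
    refine ⟨by show r v (s' + 0) = _; rw [add_zero], fun x y hx hy => ?_⟩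
    rw [(hr v).2 _ _ (by linarith) (by linarith)]
    congr 1
    ring
  have h4 : Asy (fun t => r v (s' + t)) a := by
    obtain ⟨K, hK⟩ := hra v
    refine ⟨s' + K, fun t ht => ?_⟩
    have h5 := dist_triangle (r v (s' + t)) (r v t) (a t)
    rw [(hr v).2 _ _ (by linarith) ht, show s' + t - t = s' by ring, abs_of_nonneg hs'] at h5
    linarith [hK t ht]
  have h5 := flat_eq hX ha h1 h2 (v' := v') h3 h4 (sub_nonneg.2 h)
  simp only [add_sub_cancel] at h5
  exact h5

/-- a flat on which the Busemann function is affine with gradient of norm less than one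
gives a flat of the next dimension -/
lemma embed (hG : Geo X G) {o : X} {a : ℝ → X} (ha : Ray o a) {F : E n → X}
    (hF : Isometry F) {w : E n} {b : ℝ} (hw : ∀ v, bus a (F v) = b + inner ℝ w v)
    (hw1 : ‖w‖ < 1) : ∃ F' : E (n + 1) → X, Isometry F' := by
  have := hG.proper
  have := hG.isom
  have hX := hG.cn
  have h0 := fun v => asy_exists hX (F v) ha
  choose r hr hra using h0
  have hform := fun v v' => fun {s s' : ℝ} (hs : 0 ≤ s) (hs' : 0 ≤ s') =>
    flat_form hX ha hF hw hr hra v v' hs hs'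
  obtain ⟨D, hD0, hD⟩ := coc hG o
  choose g hg using fun j : ℕ => hD (r 0 j)
  set f : ℕ → E n × ℝ → X := fun j z => g j • r z.1 (max (j + z.2) 0) with hf
  have hcomp : IsCompact (Set.pi univ fun z : E n × ℝ => closedBall o (‖z.1‖ + |z.2| + D)) :=
    isCompact_univ_pi fun v => isCompact_closedBall _ _
  obtain ⟨P, -, hP⟩ := hcomp.ultrafilter_le_nhds ((hyperfilter ℕ).map f) (by
    rw [le_principal_iff]
    refine (Eventually.of_forall fun j => ?_ : ∀ᶠ j in (hyperfilter ℕ : Filter ℕ),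
      f j ∈ Set.pi univ fun z : E n × ℝ => closedBall o (‖z.1‖ + |z.2| + D))
    rw [Set.mem_univ_pi]
    intro z
    rw [mem_closedBall]
    have hj : (0 : ℝ) ≤ j := Nat.cast_nonneg j
    have h4 := dist_triangle (f j z) (g j • r 0 j) o
    have h5 : dist (f j z) (g j • r 0 j) ≤ ‖z.1‖ + |z.2| := by
      show dist (g j • r z.1 (max (j + z.2) 0)) (g j • r 0 j) ≤ _
      rw [dist_smul]
      have h6 := dist_triangle (r z.1 (max (j + z.2) 0)) (r z.1 j) (r 0 j)
      have h7 : dist (r z.1 (max (j + z.2) 0)) (r z.1 j) ≤ |z.2| := by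
        rw [(hr z.1).2 _ _ (le_max_right _ _) hj]
        have h8 := abs_max_sub_max_le_abs ((j : ℝ) + z.2) j 0
        rw [max_eq_left hj, show (j : ℝ) + z.2 - j = z.2 by ring] at h8
        exact h8
      have h8 : dist (r z.1 j) (r 0 j) = ‖z.1‖ := by
        rw [flat_iso hX ha hF hw (hr _) (hra _) (hr _) (hra _) hj, sub_zero]
      linarith
    linarith [hg j])
  have hP' : ∀ z, Tendsto (fun j => f j z) (hyperfilter ℕ : Filter ℕ) (𝓝 (P z)) :=
    fun z => (continuous_apply z).tendsto _ |>.comp (show Tendsto f _ _ from hP)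
  have hPd : ∀ (v v' : E n) (s s' : ℝ), dist (P (v, s)) (P (v', s')) ^ 2 =
      ‖v - v'‖ ^ 2 + (s - s') ^ 2 - 2 * (s - s') * inner ℝ w (v - v') := by
    intro v v' s s'
    refine tendsto_nhds_unique (((hP' (v, s)).dist (hP' (v', s'))).pow 2) ?_
    refine tendsto_const_nhds.congr' ?_
    have hev : ∀ v : ℝ, ∀ᶠ n : ℕ in (hyperfilter ℕ : Filter ℕ), |v| ≤ (n : ℝ) := fun v =>
      Nat.hyperfilter_le_atTop (tendsto_natCast_atTop_atTop.eventually_ge_atTop _)
    filter_upwards [hev s, hev s'] with j hj hj'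
    have h4 := neg_abs_le s
    have h5 := neg_abs_le s'
    show _ = dist (g j • r v (max (j + s) 0)) (g j • r v' (max (j + s') 0)) ^ 2
    rw [dist_smul, max_eq_left (by linarith), max_eq_left (by linarith),
      hform v v' (by linarith) (by linarith)]
    ring
  -- coordinates
  obtain ⟨κ, hκ⟩ : ∃ κ : ℝ, κ = Real.sqrt (1 - ‖w‖ ^ 2) := ⟨_, rfl⟩
  have hk1 : 0 < 1 - ‖w‖ ^ 2 := by nlinarith [norm_nonneg w]
  have hκ0 : 0 < κ := by rw [hκ]; exact Real.sqrt_pos.2 hk1
  have hκ2 : κ ^ 2 = 1 - ‖w‖ ^ 2 := by rw [hκ]; exact Real.sq_sqrt hk1.le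
  let ini : E (n + 1) → E n := fun x => WithLp.toLp 2 fun i => x i.castSucc
  have hini : ∀ x y : E (n + 1), ini (x - y) = ini x - ini y := fun x y => by
    ext i
    simp [ini]
  have hnorm : ∀ x : E (n + 1), ‖x‖ ^ 2 = ‖ini x‖ ^ 2 + x (Fin.last n) ^ 2 := by
    intro x
    rw [EuclideanSpace.norm_sq_eq, EuclideanSpace.norm_sq_eq, Fin.sum_univ_castSucc]
    simp [ini]
  refine ⟨fun x => P (ini x + (x (Fin.last n) / κ) • w, x (Fin.last n) / κ), ?_⟩
  refine Isometry.of_dist_eq fun x y => ?_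
  have h1 : dist (P (ini x + (x (Fin.last n) / κ) • w, x (Fin.last n) / κ))
      (P (ini y + (y (Fin.last n) / κ) • w, y (Fin.last n) / κ)) ^ 2 = dist x y ^ 2 := by
    rw [hPd, dist_eq_norm x y, hnorm, hini]
    obtain ⟨d, hd⟩ : ∃ d, d = (x - y) (Fin.last n) / κ := ⟨_, rfl⟩
    have hd' : x (Fin.last n) / κ - y (Fin.last n) / κ = d := by
      rw [hd]
      simp [sub_div]
    have hd'' : (x - y) (Fin.last n) ^ 2 = d ^ 2 * κ ^ 2 := by
      rw [hd]
      field_simp
    have e1 : ini x + (x (Fin.last n) / κ) • w - (ini y + (y (Fin.last n) / κ) • w) =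
        (ini x - ini y) + d • w := by
      rw [← hd']
      module
    rw [e1, hd', hd'', hκ2, norm_add_sq_real, inner_add_right, inner_smul_right,
      inner_smul_right, norm_smul, real_inner_self_eq_norm_sq, real_inner_comm w,
      Real.norm_eq_abs, mul_pow, sq_abs]
    ring
  exact (pow_left_inj₀ dist_nonneg dist_nonneg two_ne_zero).1 h1

end flat

/-- every closed invariant set at infinity meets the boundary of a flat of a closed invariant
family of flats of maximal dimension -/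
theorem flat_end (hG : Geo X G) {n : ℕ} (hmax : ∀ F : E (n + 1) → X, ¬ Isometry F) {o : X}
    {N : Set (ℝ → X)} (hN : Inv G o N) {L : Set (E n → X)} (hL : Fam G L) (hne : L.Nonempty) :
    ∃ F ∈ L, ∃ a ∈ N, ∃ w : E n, ‖w‖ = 1 ∧ Asy (fun t : ℝ => F ((-t) • w)) a := by
  have := hG.proper
  have hX := hG.cn
  obtain ⟨F, hF, a, ha, w, hw⟩ := affine_exists hG hN hL hne
  have hFi := hL.isom F hF
  have haB := hN.sub ha
  have h1 : ‖w‖ ≤ 1 := by
    have h2 := bus_lip haB.1 (F w) (F 0)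
    rw [hFi.dist_eq, dist_zero_right, hw w, real_inner_self_eq_norm_sq,
      show bus a (F 0) + ‖w‖ ^ 2 - bus a (F 0) = ‖w‖ ^ 2 by ring,
      abs_of_nonneg (sq_nonneg _)] at h2
    by_contra h3
    push Not at h3
    nlinarith
  rcases h1.lt_or_eq with h2 | h2
  · obtain ⟨F', hF'⟩ := embed hG haB.1 hFi hw h2
    exact absurd hF' (hmax F')
  · refine ⟨F, hF, a, ha, w, h2, ?_⟩
    refine bus_grad hX haB.1 (p := F 0) ⟨by simp, fun s t _ _ => ?_⟩ fun T hT => ?_
    · rw [hFi.dist_eq, dist_eq_norm, show (-s) • w - (-t) • w = (-(s - t)) • w by module,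
        norm_smul, h2, mul_one, norm_neg, Real.norm_eq_abs]
    · rw [hw, inner_smul_right, real_inner_self_eq_norm_sq, h2]
      linarith

end Pool.Agent.N53.RO
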