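import Pool.Agent.N53.RO.Crit

/-!
# The Tits distances of minimal sets
-/

set_option autoImplicit false

universe u v

open Metric Set Filter Topology
open Pool.Agent.TH60.FP Pool.Agent.Y34.HB Pool.Agent.Y34.EL

namespace Pool.Agent.N53.RO

variable {X : Type u} [MetricSpace X] {G : Type v} [Group G] [MulAction G X]

/-- the end of `c` is in the closure of the orbit of the end of `c₀` -/
def Ioc' (G : Type v) [Group G] [MulAction G X] (x : X) (c₀ c : ℝ → X) : Prop :=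
  ∀ T ε : ℝ, 0 < ε → ∃ (g : G) (c' : ℝ → X), Ray x c' ∧ Asy c' (fun t => g • c₀ t) ∧
    ∀ t : ℝ, 0 ≤ t → t ≤ T → dist (c t) (c' t) ≤ ε

lemma ioc_mem [ProperSpace X] (hX : CN X) {x : X} {c d : ℝ → X} (hd : d ∈ Bd x)
    (h : Ioc' G x c d) : d ∈ closure (Orb G x c) := by
  refine mem_closure_bd hX hd (fun e he => he.1) fun T δ hT hδ => ?_
  obtain ⟨g, e, he, hec, hde⟩ := h T δ hδ
  obtain ⟨e', he', hee'⟩ := bd_norm (o := x) he
  refine ⟨e', ⟨he', g, ?_⟩, ?_⟩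
  · obtain ⟨K, hK⟩ := hec
    refine ⟨K, fun t ht => ?_⟩
    rw [hee' t ht]
    exact hK t ht
  · rw [hee' T hT.le, dist_comm]
    exact hde T hT.le le_rfl

lemma mem_ioc [ProperSpace X] (hX : CN X) {x : X} {c d : ℝ → X} (hd : Ray x d)
    (h : d ∈ closure (Orb G x c)) : Ioc' G x c d := by
  intro T δ hδ
  obtain ⟨e, ⟨heB, g, he⟩, hec⟩ := closure_near h |T| hδ
  refine ⟨g, e, heB.1, he, fun t ht htT => ?_⟩
  rw [dist_comm] at hec
  exact (ray_mono hX hd heB.1 ht (htT.trans (le_abs_self T))).trans hec.le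

lemma ioc_congr {x : X} {c c' d d' : ℝ → X} (hc : ∀ t : ℝ, 0 ≤ t → c' t = c t)
    (hd : ∀ t : ℝ, 0 ≤ t → d' t = d t) (h : Ioc' G x c d) : Ioc' G x c' d' := by
  intro T δ hδ
  obtain ⟨g, e, he, ⟨K, hK⟩, hde⟩ := h T δ hδ
  refine ⟨g, e, he, ⟨K, fun t ht => ?_⟩, fun t ht htT => ?_⟩
  · show dist (e t) (g • c' t) ≤ K
    rw [hc t ht]
    exact hK t ht
  · rw [hd t ht]
    exact hde t ht htT

/-- the closure of the orbit of a minimal end is a minimal set -/
lemma min_end_inv [ProperSpace X] (hX : CN X) {x : X} {c : ℝ → X} (hc : c ∈ Bd x)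
    (h : ∀ d : ℝ → X, Ray x d → Ioc' G x c d → Ioc' G x d c) :
    ∀ C', Inv G x C' → C' ⊆ closure (Orb G x c) → C' = closure (Orb G x c) := by
  intro C' hC' hsub
  refine subset_antisymm hsub ?_
  obtain ⟨d, hd⟩ := hC'.ne
  have hdB := hC'.sub hd
  have h1 := h d hdB.1 (mem_ioc hX hdB.1 (hsub hd))
  have h2 : closure (Orb G x d) ⊆ C' := closure_minimal (fun c' hc' => by
    obtain ⟨h3, k, h4⟩ := hc'
    exact hC'.inv d hd k c' h3 h4) hC'.closed
  have h3 : c ∈ C' := h2 (ioc_mem hX hc h1)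
  exact closure_minimal (fun c' hc' => by
    obtain ⟨h4, k, h5⟩ := hc'
    exact hC'.inv c h3 k c' h4 h5) hC'.closed

/-- minimal ends are half-plane ends, and their Tits distances are less than `π` -/
theorem gap (hG : Geo X G) (hno : ∀ g : G, ¬ RankOne X g) {σ₀ : ℝ → X} (hσ₀ : Isometry σ₀)
    (he : ¬ (HP σ₀).Nonempty) (x : X) :
    ∃ c₀ : ℝ → X, Ray x c₀ ∧ (∀ d : ℝ → X, Ray x d → Ioc' G x c₀ d → Ioc' G x d c₀) ∧
      ∃ ε : ℝ, 0 < ε ∧ ∀ c c' : ℝ → X, Ray x c → Ioc' G x c₀ c → Ray x c' →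
        ((∀ d : ℝ → X, Ray x d → Ioc' G x c' d → Ioc' G x d c') ∨
          ∀ σ : ℝ → X, Isometry σ → Asy (fun t => σ (-t)) c' → (HP σ).Nonempty) →
        ∀ t : ℝ, 0 ≤ t → dist (c t) (c' t) ≤ (2 - ε) * t := by
  have := hG.proper
  have := hG.isom
  have hX := hG.cn
  obtain ⟨N, hN, hmin, hbad⟩ := exists_bad hG x hσ₀ he
  obtain ⟨ε, hε, hgap⟩ := tits_gap hG hN hbad
  obtain ⟨c₀, hc₀⟩ := hN.ne
  have hcl : closure (Orb G x c₀) ⊆ N := closure_minimal (fun c' hc' => by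
    obtain ⟨h3, k, h4⟩ := hc'
    exact hN.inv c₀ hc₀ k c' h3 h4) hN.closed
  refine ⟨c₀, (hN.sub hc₀).1, ?_, ε, hε, ?_⟩
  · intro d hd hcd
    obtain ⟨d', hd', hdd'⟩ := bd_norm (o := x) hd
    have h1 : d' ∈ N := hcl (ioc_mem hX hd' (ioc_congr (fun t _ => rfl) hdd' hcd))
    have h2 : c₀ ∈ closure (Orb G x d') := by
      have h3 := orb_inv (G := G) hX hd'
      rw [hmin _ h3 (closure_minimal (fun c' hc' => by
        obtain ⟨h4, k, h5⟩ := hc'
        exact hN.inv d' h1 k c' h4 h5) hN.closed)]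
      exact hc₀
    exact ioc_congr (fun t ht => (hdd' t ht).symm) (fun t _ => rfl)
      (mem_ioc hX (hN.sub hc₀).1 h2)
  · intro c c' hc hcc hc' h t ht
    obtain ⟨d, hd, hdc⟩ := bd_norm (o := x) hc
    obtain ⟨d', hd', hdc'⟩ := bd_norm (o := x) hc'
    have h1 : d ∈ N := hcl (ioc_mem hX hd (ioc_congr (fun t _ => rfl) hdc hcc))
    have hasy : Asy c' d' := ⟨0, fun t ht => by rw [hdc' t ht, dist_self]⟩
    have h2 : d' ∈ ZZ x := by
      refine ⟨hd', fun σ hσ hσd => ?_⟩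
      rcases h with h | h
      · have h3 : ∀ e : ℝ → X, Ray x e → Ioc' G x d' e → Ioc' G x e d' := by
          intro e he hde
          exact ioc_congr (fun t _ => rfl) hdc'
            (h e he (ioc_congr (fun t ht => (hdc' t ht).symm) (fun t _ => rfl) hde))
        exact half_plane hG hno (orb_inv (G := G) hX hd') (min_end_inv hX hd' h3)
          (subset_closure (orb_self hd')) hσ hσd
      · exact h σ hσ (hσd.trans hasy.symm)
    rcases ht.eq_or_lt with h0 | h0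
    · rw [← h0, hc.1, hc'.1, dist_self, mul_zero]
    · rw [← hdc t ht, ← hdc' t ht]
      exact hgap d h1 d' h2 t h0

end Pool.Agent.N53.RO
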