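import Pool.Agent.N53.RO.Bdry

/-!
# Lines which end in a minimal set

`G` acts geometrically on the proper CAT(0) space `X`.  If `σ` is a line, `σ (-∞)` is in a minimal
closed invariant subset of the boundary and `σ` bounds no flat half-plane then `G` contains a rank
one isometry.
-/

set_option autoImplicit false

universe u v

open Metric Set Filter Topology
open Pool.Agent.TH60.FP Pool.Agent.Y34.HB Pool.Agent.Y34.EL

namespace Pool.Agent.N53.RO

variable {X : Type u} [MetricSpace X]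

/-- extension of a broken ray to a line -/
lemma extend [ProperSpace X] (hX : CN X) (hGC : GC X) {x b : X} {c : ℝ → X} (hc : Ray x c)
    {R : ℝ} (hR : 0 ≤ R) (hxb : dist x b = R) (hb : ∀ t : ℝ, 0 ≤ t → dist (c t) b = t + R) :
    ∃ σ : ℝ → X, Isometry σ ∧ (∀ t : ℝ, 0 ≤ t → σ (-t) = c t) ∧ σ R = b := by
  have h1 : ∀ n : ℕ, ∃ γ : ℝ → X, Isometry γ ∧ γ R = b ∧
      ∀ t : ℝ, 0 ≤ t → t ≤ (n : ℝ) + 1 → γ (-t) = c t := by
    intro n
    have hn : (0 : ℝ) < (n : ℝ) + 1 := by positivity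
    have hd := hb ((n : ℝ) + 1) hn.le
    obtain ⟨γ, h1, h2, h3⟩ := hGC (c ((n : ℝ) + 1)) b (by
      intro h
      rw [h, dist_self] at hd
      linarith)
    refine ⟨fun s => γ (s + ((n : ℝ) + 1)), ?_, ?_, ?_⟩
    · exact h1.comp (IsometryEquiv.addRight ((n : ℝ) + 1)).isometry
    · show γ (R + ((n : ℝ) + 1)) = b
      rw [← h3, hd, add_comm]
    · intro t ht htn
      refine (t_stew X hX).2.1 (c ((n : ℝ) + 1)) b ((n : ℝ) + 1 - t) _ _ ⟨?_, ?_⟩ ⟨?_, ?_⟩
      · show dist (c ((n : ℝ) + 1)) (γ (-t + ((n : ℝ) + 1))) = _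
        rw [← h2, h1.dist_eq, Real.dist_eq, show (0 : ℝ) - (-t + ((n : ℝ) + 1)) =
          -((n : ℝ) + 1 - t) by ring, abs_neg, abs_of_nonneg (by linarith)]
      · show dist (γ (-t + ((n : ℝ) + 1))) b = _
        rw [hd]
        nth_rw 1 [← h3]
        rw [h1.dist_eq, Real.dist_eq, hd, abs_sub_comm, abs_of_nonneg (by linarith)]
        ring
      · rw [hc.2 _ _ hn.le ht, abs_of_nonneg (by linarith)]
      · rw [hd, hb t ht]
        ring
  choose γ h2 h3 h4 using h1
  have hx0 : ∀ n, γ n 0 = x := by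
    intro n
    have := h4 n 0 le_rfl (by positivity)
    rw [neg_zero, hc.1] at this
    exact this
  have h5 : IsCompact (Set.pi univ fun t : ℝ => closedBall x |t|) :=
    isCompact_univ_pi fun t => isCompact_closedBall _ _
  obtain ⟨σ, -, hσ⟩ := h5.ultrafilter_le_nhds ((hyperfilter ℕ).map γ) (by
    rw [le_principal_iff]
    refine (Eventually.of_forall fun n => ?_ : ∀ᶠ n in (hyperfilter ℕ : Filter ℕ),
      γ n ∈ Set.pi univ fun t : ℝ => closedBall x |t|)
    rw [Set.mem_univ_pi]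
    intro t
    rw [mem_closedBall, ← hx0 n, (h2 n).dist_eq, Real.dist_eq, sub_zero])
  have hσ' : ∀ t, Tendsto (fun n => γ n t) (hyperfilter ℕ : Filter ℕ) (𝓝 (σ t)) :=
    fun t => (continuous_apply t).tendsto _ |>.comp (show Tendsto γ _ _ from hσ)
  refine ⟨σ, Isometry.of_dist_eq fun s t => ?_, fun t ht => ?_, ?_⟩
  · refine tendsto_nhds_unique ((hσ' s).dist (hσ' t)) ?_
    simp_rw [(h2 _).dist_eq]
    exact tendsto_const_nhds
  · refine tendsto_nhds_unique (hσ' (-t)) ?_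
    refine tendsto_const_nhds.congr' ?_
    have h6 : ∀ᶠ n : ℕ in (hyperfilter ℕ : Filter ℕ), t ≤ (n : ℝ) :=
      Nat.hyperfilter_le_atTop (tendsto_natCast_atTop_atTop.eventually_ge_atTop _)
    filter_upwards [h6] with n hn
    exact (h4 n t ht (by linarith)).symm
  · refine tendsto_nhds_unique (hσ' R) ?_
    simp_rw [h3]
    exact tendsto_const_nhds

variable {G : Type v} [Group G] [MulAction G X]

/-- lines which end in a minimal set bound half-planes, or there are rank one isometries -/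
theorem half_plane (hG : Geo X G) (hno : ∀ g : G, ¬ RankOne X g) {o : X} {M : Set (ℝ → X)}
    (hM : Inv G o M) (hmin : ∀ C', Inv G o C' → C' ⊆ M → C' = M) {m : ℝ → X} (hm : m ∈ M)
    {σ : ℝ → X} (hσ : Isometry σ) (hσm : Asy (fun t => σ (-t)) m) : (HP σ).Nonempty := by
  classical
  have := hG.proper
  have := hG.isom
  have hX := hG.cn
  by_contra hne
  have he : HP σ = ∅ := Set.not_nonempty_iff_eq_empty.1 hne
  obtain ⟨T, L, hT, hTL, hcl⟩ := t_closing X G hG σ hσ he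
  set p := σ 0 with hp
  have hmB := hM.sub hm
  have hrσ : Ray p (fun t => σ (-t)) := by
    refine ⟨by show σ (-0) = p; rw [neg_zero], fun s t _ _ => ?_⟩
    rw [hσ.dist_eq, Real.dist_eq, show -s - -t = -(s - t) by ring, abs_neg]
  have hσp : ∀ t : ℝ, 0 ≤ t → dist p (σ t) = t := by
    intro t ht
    rw [hp, hσ.dist_eq, Real.dist_eq, zero_sub, abs_neg, abs_of_nonneg ht]
  have hσp' : ∀ t : ℝ, 0 ≤ t → dist p (σ (-t)) = t := fun t ht => ray_dist hrσ ht
  -- cocompactness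
  obtain ⟨D, hD⟩ : ∃ D : ℝ, ∀ x : X, ∃ γ : G, dist (γ • o) x ≤ D := by
    obtain ⟨K, hK, hKG⟩ := hG.cc
    obtain ⟨D, hD⟩ := hK.isBounded.subset_closedBall o
    refine ⟨D, fun x => ?_⟩
    obtain ⟨g, hg⟩ := hKG x
    refine ⟨g⁻¹, ?_⟩
    have h := hD hg
    rw [mem_closedBall] at h
    rw [← dist_smul g (g⁻¹ • o) x, smul_inv_smul, dist_comm]
    exact h
  choose g hg using fun n : ℕ => hD (σ n)
  have hD0 : 0 ≤ D := dist_nonneg.trans (hg 0)
  set A := dist p o with hA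
  have hA0 : 0 ≤ A := dist_nonneg
  have hσm' : ∀ t : ℝ, 0 ≤ t → dist (σ (-t)) (m t) ≤ A := fun t ht =>
    asy_le hX hrσ hmB.1 hσm ht
  -- the rays `ζ n`
  have hζex : ∀ n : ℕ, ∃ ζ ∈ Bd o, Asy ζ (fun t => (g n)⁻¹ • m t) := fun n =>
    bd_exists hX o (ray_smul (g n)⁻¹ hmB.1)
  choose ζ hζB hζ using hζex
  have hζM : ∀ n, ζ n ∈ M := fun n => hM.inv m hm (g n)⁻¹ (ζ n) (hζB n) (hζ n)
  have hζσ : ∀ (n : ℕ) (t : ℝ), 0 ≤ t → dist (ζ n t) ((g n)⁻¹ • σ (n - t)) ≤ D := by
    intro n t ht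
    have hr : Ray ((g n)⁻¹ • σ n) (fun t => (g n)⁻¹ • σ (n - t)) := by
      refine ⟨by show (g n)⁻¹ • σ (n - 0) = _; rw [sub_zero], fun s t _ _ => ?_⟩
      rw [dist_smul, hσ.dist_eq, Real.dist_eq, show (n : ℝ) - s - (n - t) = -(s - t) by ring,
        abs_neg]
    have h1 : Asy (fun t => (g n)⁻¹ • m t) (fun t => (g n)⁻¹ • σ (n - t)) := by
      refine ⟨A + n, fun t ht => ?_⟩
      rw [dist_smul]
      have h2 := dist_triangle (m t) (σ (-t)) (σ (n - t))
      have h3 : dist (σ (-t)) (σ (n - t)) = n := by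
        rw [hσ.dist_eq, Real.dist_eq, show -t - ((n : ℝ) - t) = -n by ring, abs_neg,
          abs_of_nonneg (Nat.cast_nonneg n)]
      rw [dist_comm (m t) (σ (-t))] at h2
      linarith [hσm' t ht]
    refine (asy_le hX (hζB n).1 hr ((hζ n).trans h1) ht).trans ?_
    rw [← dist_smul (g n) o, smul_inv_smul]
    exact hg n
  -- their limit
  have hMc : IsCompact M := (bd_compact o).of_isClosed_subset hM.closed hM.sub
  obtain ⟨z, hzM, hz⟩ := hMc.ultrafilter_le_nhds ((hyperfilter ℕ).map ζ) (by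
    rw [le_principal_iff]
    exact (Eventually.of_forall hζM : ∀ᶠ n in (hyperfilter ℕ : Filter ℕ), ζ n ∈ M))
  have hz' : Tendsto ζ (hyperfilter ℕ : Filter ℕ) (𝓝 z) := hz
  have hzB := hM.sub hzM
  -- minimality
  obtain ⟨T', hT'⟩ : ∃ T' : ℝ, T' = T + 2 * T * (2 * A + 3) + 1 := ⟨_, rfl⟩
  have hTT' : T ≤ T' := by
    have : 0 ≤ 2 * T * (2 * A + 3) := by positivity
    linarith
  have hT'0 : 0 < T' := hT.trans_le hTT'
  have hmc : m ∈ closure (Orb G o z) := by
    have h1 := orb_inv (G := G) hX hzB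
    have h2 : closure (Orb G o z) ⊆ M :=
      closure_minimal (fun c' hc' => by
        obtain ⟨h3, k, h4⟩ := hc'
        exact hM.inv z hzM k c' h3 h4) hM.closed
    rw [hmin _ h1 h2]
    exact hm
  obtain ⟨w, hw1, hw2⟩ : ∃ w ∈ Orb G o z, dist (w T') (m T') < 1 := by
    have h1 : IsOpen {c : ℝ → X | dist (c T') (m T') < 1} :=
      isOpen_lt ((continuous_apply T').dist continuous_const) continuous_const
    obtain ⟨w, h2, h3⟩ := mem_closure_iff.1 hmc _ h1 (by simp)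
    exact ⟨w, h3, h2⟩
  obtain ⟨hwB, h, hwz⟩ := hw1
  have hqex : ∀ n : ℕ, ∃ q ∈ Bd o, Asy q (fun t => h • ζ n t) := fun n =>
    bd_exists hX o (ray_smul h (hζB n).1)
  choose q hqB hq using hqex
  have hqw : Tendsto q (hyperfilter ℕ : Filter ℕ) (𝓝 w) :=
    act_tendsto hX h (hyperfilter ℕ) hzB hwB hwz
      (Eventually.of_forall fun n => ⟨hζB n, hqB n, hq n⟩) hz'
  have hqT : ∀ᶠ n in (hyperfilter ℕ : Filter ℕ), dist (q n T') (w T') < 1 := by
    have h1 : Tendsto (fun n => q n T') (hyperfilter ℕ : Filter ℕ) (𝓝 (w T')) :=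
      (continuous_apply T').tendsto _ |>.comp hqw
    have h2 := h1.dist (tendsto_const_nhds (x := w T'))
    rw [dist_self] at h2
    exact h2.eventually (gt_mem_nhds one_pos)
  -- constants
  set E1 := dist (h⁻¹ • p) o + D with hE1
  set E3 := D + dist o (h • o) with hE3
  have hE10 : 0 ≤ E1 := by positivity
  have hE30 : 0 ≤ E3 := by positivity
  have hlarge : ∀ᶠ n : ℕ in (hyperfilter ℕ : Filter ℕ),
      E1 + L + 2 * T' * E3 + 2 * T' * E1 + T' + 4 * T * E1 + 1 ≤ (n : ℝ) :=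
    Nat.hyperfilter_le_atTop (tendsto_natCast_atTop_atTop.eventually_ge_atTop _)
  obtain ⟨n, hn, hnq⟩ := (hlarge.and hqT).exists
  have hn0 : (0 : ℝ) ≤ n := Nat.cast_nonneg n
  have p1 : 0 ≤ 2 * T' * E3 := by positivity
  have p2 : 0 ≤ 2 * T' * E1 := by positivity
  have p3 : 0 ≤ 4 * T * E1 := by positivity
  have hL0 : 0 < L := hT.trans_le hTL
  refine hno (g n * h⁻¹) (hcl (g n * h⁻¹) ?_ ?_ ?_)
  all_goals clear hcl hno
  all_goals
    have hgp : dist ((g n * h⁻¹) • p) (σ n) ≤ E1 := by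
      have h1 := dist_triangle ((g n * h⁻¹) • p) (g n • o) (σ n)
      rw [mul_smul, dist_smul] at h1
      rw [mul_smul]
      linarith [hg n]
    have hdn1 : (n : ℝ) - E1 ≤ dist p ((g n * h⁻¹) • p) := by
      have h1 := dist_triangle p ((g n * h⁻¹) • p) (σ n)
      rw [hσp n hn0] at h1
      linarith
    have hdn2 : dist p ((g n * h⁻¹) • p) ≤ n + E1 := by
      have h1 := dist_triangle p (σ n) ((g n * h⁻¹) • p)
      rw [hσp n hn0, dist_comm (σ n)] at h1
      linarith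
  · linarith
  · intro y hy
    have h1 := (t_cmp X hX).1 p ((g n * h⁻¹) • p) (σ n) T y (σ T) hy
      ⟨hσp T hT.le, by
        rw [hσp n hn0, hσ.dist_eq, Real.dist_eq, abs_sub_comm, abs_of_nonneg (by linarith)]⟩
    rw [hσp n hn0] at h1
    by_contra h2
    push Not at h2
    generalize dist p ((g n * h⁻¹) • p) = d at *
    have h3 : dist ((g n * h⁻¹) • p) (σ n) ^ 2 ≤ E1 ^ 2 := pow_le_pow_left₀ dist_nonneg hgp 2
    have h4 : (1 / 2 : ℝ) ^ 2 < dist y (σ T) ^ 2 := pow_lt_pow_left₀ h2 (by norm_num) two_ne_zero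
    have h5 : 0 < d := by linarith
    have h6 : dist y (σ T) ^ 2 * (d * n) ≤ T ^ 2 * E1 ^ 2 := h1.trans
      (mul_le_mul_of_nonneg_left (by nlinarith [sq_nonneg (d - n)]) (sq_nonneg T))
    have hnp : (0 : ℝ) < n := by linarith
    have h7 : (1 / 2 : ℝ) ^ 2 * (d * n) < dist y (σ T) ^ 2 * (d * n) :=
      mul_lt_mul_of_pos_right h4 (by positivity)
    have h8 : 4 * T * E1 + 1 ≤ d := by linarith
    have h9 : 4 * T * E1 + 1 ≤ n := by linarith
    have h10 : (4 * T * E1 + 1) * (4 * T * E1 + 1) ≤ d * n := mul_le_mul h8 h9 (by positivity) h5.le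
    nlinarith [mul_nonneg hT.le hE10]
  · intro y hy
    set k := g n * h⁻¹ with hk
    have hkk : k⁻¹ • p = h • (g n)⁻¹ • p := by rw [hk, mul_inv_rev, inv_inv, mul_smul]
    have hdk : dist p (k⁻¹ • p) = dist p (k • p) := by
      rw [← dist_smul k p (k⁻¹ • p), smul_inv_smul, dist_comm]
    set d := dist p (k • p) with hd
    have hd0 : 0 < d := by linarith
    have e1 : dist (k⁻¹ • p) (q n n) ≤ E3 := by
      rw [hkk]
      have h1 := dist_triangle (h • (g n)⁻¹ • p) (h • ζ n n) (q n n)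
      rw [dist_smul] at h1
      have h2 := hζσ n n hn0
      rw [sub_self, ← hp, dist_comm] at h2
      have h3 := asy_le hX (hqB n).1 (ray_smul h (hζB n).1) (hq n) hn0
      rw [dist_comm] at h3
      linarith
    obtain ⟨l, hl⟩ : ∃ l, l = T' / d := ⟨_, rfl⟩
    have hld : l * d = T' := by rw [hl, div_mul_cancel₀ _ hd0.ne']
    have hl0 : 0 ≤ l := by rw [hl]; positivity
    have hT'd : T' ≤ d := by linarith
    have hl1 : l ≤ 1 := by rw [hl, div_le_one hd0]; exact hT'd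
    obtain ⟨y', hy'⟩ := (t_stew X hX).1 p (k⁻¹ • p) T' hT'0.le (by rw [hdk]; exact hT'd)
    have e2 := (t_cmp X hX).2 p (k⁻¹ • p) o (q n n) l y' (q n (l * n))
      (by rw [hdk, hld]; exact hy')
      (by
        rw [ray_dist (hqB n).1 hn0]
        exact on_ray (hqB n).1 (mul_nonneg hl0 hn0) (by nlinarith)) hl0 hl1
    have e3 : l * E3 ≤ 1 / 2 := by
      rw [hl, div_mul_eq_mul_div, div_le_iff₀ hd0]
      linarith
    have e4 : dist (q n (l * n)) (q n T') ≤ 1 / 2 := by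
      rw [(hqB n).1.2 _ _ (mul_nonneg hl0 hn0) hT'0.le]
      have e : l * n - T' = l * (n - d) := by rw [mul_sub, hld]
      rw [e, abs_mul, abs_of_nonneg hl0]
      have h5 : |(n : ℝ) - d| ≤ E1 := abs_le.2 ⟨by linarith, by linarith⟩
      calc l * |(n : ℝ) - d| ≤ l * E1 := mul_le_mul_of_nonneg_left h5 hl0
        _ ≤ 1 / 2 := by
          rw [hl, div_mul_eq_mul_div, div_le_iff₀ hd0]
          linarith
    have e5 : l * dist (k⁻¹ • p) (q n n) ≤ l * E3 := mul_le_mul_of_nonneg_left e1 hl0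
    have e6 : (1 - l) * dist p o ≤ A := by
      have : 0 ≤ l * dist p o := mul_nonneg hl0 dist_nonneg
      rw [hA]
      linarith
    have e7 : dist y' (σ (-T')) ≤ 2 * A + 3 := by
      have h1 := dist_triangle y' (q n (l * n)) (σ (-T'))
      have h2 := dist_triangle (q n (l * n)) (q n T') (σ (-T'))
      have h3 := dist_triangle (q n T') (w T') (σ (-T'))
      have h4 := dist_triangle (w T') (m T') (σ (-T'))
      have h5 := hσm' T' hT'0.le
      rw [dist_comm] at h5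
      linarith
    have e8 : On p y' T y := by
      refine ⟨hy.1, ?_⟩
      rw [Pool.Agent.Y350.EL.on_dist t_stew hX hT.le hTT' hy hy', hy'.1]
    have e9 := (t_cmp X hX).1 p y' (σ (-T')) T y (σ (-T)) e8
      (by
        refine ⟨hσp' T hT.le, ?_⟩
        rw [hσp' T' hT'0.le, hσ.dist_eq, Real.dist_eq, show -T - -T' = T' - T by ring,
          abs_of_nonneg (by linarith)])
    rw [hy'.1, hσp' T' hT'0.le, sub_self] at e9
    by_contra h2
    push Not at h2
    have h3 : dist y' (σ (-T')) ^ 2 ≤ (2 * A + 3) ^ 2 := pow_le_pow_left₀ dist_nonneg e7 2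
    have h4 : (1 / 2 : ℝ) ^ 2 < dist y (σ (-T)) ^ 2 :=
      pow_lt_pow_left₀ h2 (by norm_num) two_ne_zero
    have h6 : dist y (σ (-T)) ^ 2 * (T' * T') ≤ T ^ 2 * (2 * A + 3) ^ 2 := e9.trans
      (mul_le_mul_of_nonneg_left (by linarith) (sq_nonneg T))
    have h7 : (1 / 2 : ℝ) ^ 2 * (T' * T') < dist y (σ (-T)) ^ 2 * (T' * T') :=
      mul_lt_mul_of_pos_right h4 (by positivity)
    have h8 : 2 * T * (2 * A + 3) ≤ T' := by linarith
    have h9 : (2 * T * (2 * A + 3)) * (2 * T * (2 * A + 3)) ≤ T' * T' :=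
      mul_le_mul h8 h8 (by positivity) hT'0.le
    have h10 : (2 * T * (2 * A + 3)) * (2 * T * (2 * A + 3)) =
      4 * (T ^ 2 * (2 * A + 3) ^ 2) := by ring
    clear_value A
    linarith

end Pool.Agent.N53.RO
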