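import Pool.Agent.N53.RO.Bus

/-!
# The set of the points at infinity such that all lines which end there bound half-planes
-/

set_option autoImplicit false

universe u v

open Metric Set Filter Topology
open Pool.Agent.TH60.FP Pool.Agent.Y34.HB Pool.Agent.Y34.EL

namespace Pool.Agent.N53.RO

variable {X : Type u} [MetricSpace X]

/-- all lines which end in `c (∞)` bound half-planes -/
def ZZ (o : X) : Set (ℝ → X) :=
  {c | c ∈ Bd o ∧ ∀ σ : ℝ → X, Isometry σ → Asy (fun t => σ (-t)) c → (HP σ).Nonempty}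

/-- comparison of a point near `c (s)` with `c` -/
lemma near_dir [ProperSpace X] (hX : CN X) {o p y : X} {c : ℝ → X} (hc : Ray o c) {s K T : ℝ}
    (hT : 0 ≤ T) (hy : On o p T y) (hp : dist p (c s) ≤ K) (hTs : T ≤ s)
    {L : ℝ} (hL : 0 < L) (hs : L ≤ s) (hL2 : L ≤ dist o p) : dist y (c T) ≤ T * K / L := by
  have hs0 : 0 ≤ s := hT.trans hTs
  have h5 := (t_cmp X hX).1 o p (c s) T y (c T) hy
    (by
      refine ⟨ray_dist hc hT, ?_⟩
      rw [ray_dist hc hs0, hc.2 _ _ hT hs0, abs_sub_comm, abs_of_nonneg (by linarith)])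
  rw [ray_dist hc hs0] at h5
  have hK0 : 0 ≤ K := dist_nonneg.trans hp
  have h7 : dist p (c s) ^ 2 ≤ K ^ 2 := pow_le_pow_left₀ dist_nonneg hp 2
  have h9 : L * L ≤ dist o p * s := mul_le_mul hL2 hs hL.le dist_nonneg
  have h10 : dist y (c T) ^ 2 * (dist o p * s) ≤ T ^ 2 * K ^ 2 :=
    h5.trans (mul_le_mul_of_nonneg_left (by nlinarith [sq_nonneg (dist o p - s)])
      (sq_nonneg T))
  have h11 : dist y (c T) ^ 2 * (L * L) ≤ T ^ 2 * K ^ 2 :=
    (mul_le_mul_of_nonneg_left h9 (sq_nonneg _)).trans h10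
  rw [le_div_iff₀ hL]
  have h12 : (dist y (c T) * L) ^ 2 ≤ (T * K) ^ 2 := by nlinarith
  exact (abs_le_of_sq_le_sq' h12 (by positivity)).2

lemma ray_contract [ProperSpace X] (hX : CN X) {p : X} {c c' : ℝ → X} (hc : Ray p c)
    (hc' : Ray p c') {t T : ℝ} (ht : 0 ≤ t) (htT : t ≤ T) (hT : 0 < T) :
    dist (c t) (c' t) ≤ t / T * dist (c T) (c' T) := by
  have h1 := (t_cmp X hX).2 p (c T) p (c' T) (t / T) (c t) (c' t)
    (by rw [ray_dist hc hT.le, div_mul_cancel₀ _ hT.ne']; exact on_ray hc ht htT)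
    (by rw [ray_dist hc' hT.le, div_mul_cancel₀ _ hT.ne']; exact on_ray hc' ht htT)
    (by positivity) ((div_le_one hT).2 htT)
  rwa [dist_self, mul_zero, zero_add] at h1

/-- closure in `Bd o` -/
lemma mem_closure_bd [ProperSpace X] (hX : CN X) {o : X} {c : ℝ → X} {S : Set (ℝ → X)}
    (hc : c ∈ Bd o) (hS : S ⊆ Bd o)
    (h : ∀ T ε : ℝ, 0 < T → 0 < ε → ∃ e ∈ S, dist (e T) (c T) ≤ ε) : c ∈ closure S := by
  choose e he1 he2 using fun n : ℕ => h (n + 1) (1 / (n + 1)) (by positivity) (by positivity)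
  refine mem_closure_of_tendsto (f := e) (b := atTop) ?_ (Eventually.of_forall he1)
  rw [tendsto_pi_nhds]
  intro t
  rcases lt_or_ge t 0 with ht | ht
  · simp_rw [fun n => (hS (he1 n)).2 t ht, hc.2 t ht]
    exact tendsto_const_nhds
  · rw [tendsto_iff_dist_tendsto_zero]
    refine squeeze_zero' (Eventually.of_forall fun n => dist_nonneg) ?_
      tendsto_one_div_add_atTop_nhds_zero_nat
    filter_upwards [tendsto_natCast_atTop_atTop.eventually_ge_atTop t] with n hn
    exact (ray_mono hX (hS (he1 n)).1 hc.1 ht (by linarith)).trans (he2 n)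

lemma closure_near {c : ℝ → X} {S : Set (ℝ → X)} (h : c ∈ closure S) (T : ℝ) {ε : ℝ}
    (hε : 0 < ε) : ∃ e ∈ S, dist (e T) (c T) < ε := by
  have hop : IsOpen {d : ℝ → X | dist (d T) (c T) < ε} :=
    isOpen_lt ((continuous_apply T).dist continuous_const) continuous_const
  obtain ⟨c', h4, h5⟩ := mem_closure_iff.1 h _ hop (by simpa using hε)
  exact ⟨c', h5, h4⟩

lemma neg_ray {σ : ℝ → X} (hσ : Isometry σ) : Ray (σ 0) (fun t => σ (-t)) := by
  refine ⟨by show σ (-0) = σ 0; rw [neg_zero], fun s t _ _ => ?_⟩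
  rw [hσ.dist_eq, Real.dist_eq, show -s - -t = -(s - t) by ring, abs_neg]

lemma pos_ray {σ : ℝ → X} (hσ : Isometry σ) : Ray (σ 0) σ :=
  ⟨rfl, fun s t _ _ => by rw [hσ.dist_eq, Real.dist_eq]⟩

lemma neg_isom {σ : ℝ → X} (hσ : Isometry σ) : Isometry (fun t => σ (-t)) :=
  hσ.comp (IsometryEquiv.neg ℝ).isometry

theorem zz_closed [ProperSpace X] (hX : CN X) (o : X) : IsClosed (ZZ o) := by
  refine isClosed_of_closure_subset fun c hc => ?_
  have hcB : c ∈ Bd o := closure_minimal (fun c' h => h.1) (bd_compact o).isClosed hc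
  refine ⟨hcB, fun σ hσ hσc => ?_⟩
  by_contra hne
  have he : HP σ = ∅ := Set.not_nonempty_iff_eq_empty.1 hne
  obtain ⟨R, T, hT, hRT⟩ := t_ro X hX σ hσ he
  obtain ⟨A, hA⟩ : ∃ A, A = dist (σ 0) o := ⟨_, rfl⟩
  have hA0 : 0 ≤ A := by rw [hA]; exact dist_nonneg
  obtain ⟨T', hT'⟩ : ∃ T', T' = T + 2 * T * (2 * A + 1) + 1 := ⟨_, rfl⟩
  have hTT' : T ≤ T' := by nlinarith
  have hT'0 : 0 < T' := by linarith
  -- a nearby point of the set
  obtain ⟨e, ⟨heB, heZ⟩, hec⟩ := closure_near hc T' one_pos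
  obtain ⟨f, hf, hfe⟩ := asy_exists hX (σ 0) heB.1
  have hσn := neg_ray hσ
  have h1 : dist (f T') (σ (-T')) ≤ 2 * A + 1 := by
    have h2 := asy_le hX hf heB.1 hfe hT'0.le
    have h3 := asy_le hX hσn hcB.1 hσc hT'0.le
    have h4 := dist_triangle (f T') (e T') (σ (-T'))
    have h5 := dist_triangle (e T') (c T') (σ (-T'))
    have h3' : dist (c T') (σ (-T')) ≤ A := by rw [dist_comm, hA]; exact h3
    rw [← hA] at h2
    linarith
  have h2 : dist (f T) (σ (-T)) ≤ 1 / 2 := by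
    have h3 := ray_contract hX hf hσn hT.le hTT' hT'0
    have h4 : T / T' * dist (f T') (σ (-T')) ≤ T / T' * (2 * A + 1) :=
      mul_le_mul_of_nonneg_left h1 (by positivity)
    have h5 : T / T' * (2 * A + 1) ≤ 1 / 2 := by
      rw [div_mul_eq_mul_div, div_le_iff₀ hT'0]
      linarith
    exact h3.trans (h4.trans h5)
  -- a line from `e` to `σ (∞)`
  have hσp := pos_ray hσ
  have hopp : Opp (σ 0) f σ := by
    refine ⟨max R T, fun t ht => ?_⟩
    rcases le_total T t with hTt | hTt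
    · obtain ⟨m, h3, h4⟩ := hRT (f t) (σ t) (by rw [ray_dist hf ht]; exact hTt)
        (by rw [ray_dist hσp ht]; exact hTt)
        (by
          intro y hy
          have : y = f T := (t_stew X hX).2.1 _ _ _ _ _ hy (by
            exact on_ray hf hT.le hTt)
          rw [this]
          linarith)
        (by
          intro y hy
          have : y = σ T := (t_stew X hX).2.1 _ _ _ _ _ hy (by
            exact on_ray hσp hT.le hTt)
          rw [this, dist_self]
          norm_num)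
      exact ⟨m, h3, h4.trans (le_max_left _ _)⟩
    · refine ⟨f t, by rw [dist_self, zero_add], ?_⟩
      rw [ray_dist hf ht]
      exact hTt.trans (le_max_right _ _)
  obtain ⟨σ', K, hσ', hcl⟩ := t_line X hX (σ 0) f σ hf hσp hopp
  have hK0 : 0 ≤ K := dist_nonneg.trans (hcl 0 le_rfl).1
  obtain ⟨H, hH1, hH2⟩ := heZ (fun t => σ' (-t)) (neg_isom hσ') (by
    obtain ⟨B, hB⟩ := hfe
    refine ⟨K + B, fun t ht => ?_⟩
    show dist (σ' (- -t)) (e t) ≤ K + B
    rw [neg_neg]
    exact (dist_triangle _ _ _).trans (add_le_add (hcl t ht).1 (hB t ht)))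
  -- a far parallel line
  obtain ⟨h, hh⟩ : ∃ h : ℝ, h = |R| + K + 1 := ⟨_, rfl⟩
  have hR0 : 0 ≤ |R| := abs_nonneg R
  have hh0 : 0 ≤ h := by linarith
  obtain ⟨N, hN⟩ : ∃ N : NNReal, (N : ℝ) = h := ⟨⟨h, hh0⟩, rfl⟩
  obtain ⟨s, hs⟩ : ∃ s, s = (h + K) + T + 2 * T * (h + K) + 1 := ⟨_, rfl⟩
  have hhK : 0 ≤ h + K := by linarith
  have hThK : 0 ≤ 2 * T * (h + K) := by positivity
  have hs0 : 0 ≤ s := by linarith
  have hd : ∀ u : ℝ, dist (H (u, N)) (H (u, 0)) = h := by
    intro u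
    have h3 := hH1 (u, N) (u, 0)
    rw [sub_self, hN, NNReal.coe_zero, sub_zero, zero_pow two_ne_zero, zero_add] at h3
    exact (pow_left_inj₀ dist_nonneg hh0 two_ne_zero).1 h3
  have hpf : dist (H (-s, N)) (f s) ≤ h + K := by
    have h3 := dist_triangle (H (-s, N)) (H (-s, 0)) (f s)
    rw [hd, hH2] at h3
    have h4 := (hcl s hs0).1
    simp only [neg_neg] at h3
    linarith
  have hqf : dist (H (s, N)) (σ s) ≤ h + K := by
    have h3 := dist_triangle (H (s, N)) (H (s, 0)) (σ s)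
    rw [hd, hH2] at h3
    have h4 := (hcl s hs0).2
    linarith
  obtain ⟨L, hL⟩ : ∃ L, L = T + 2 * T * (h + K) + 1 := ⟨_, rfl⟩
  have hL0 : 0 < L := by linarith
  have hdp : L ≤ dist (σ 0) (H (-s, N)) := by
    have h3 := dist_triangle (σ 0) (H (-s, N)) (f s)
    rw [ray_dist hf hs0] at h3
    linarith
  have hdq : L ≤ dist (σ 0) (H (s, N)) := by
    have h3 := dist_triangle (σ 0) (H (s, N)) (σ s)
    rw [ray_dist hσp hs0] at h3
    linarith
  have hq : T * (h + K) / L ≤ 1 / 2 := by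
    rw [div_le_iff₀ hL0]
    linarith
  obtain ⟨m, hm1, hm2⟩ := hRT (H (-s, N)) (H (s, N)) (by linarith) (by linarith)
    (by
      intro y hy
      have h3 := near_dir hX hf hT.le hy hpf (by linarith) hL0 (by linarith) hdp
      have h4 := dist_triangle y (f T) (σ (-T))
      linarith)
    (by
      intro y hy
      have h3 := near_dir hX hσp hT.le hy hqf (by linarith) hL0 (by linarith) hdq
      linarith)
  -- `m` is in the half-plane
  have hpq : dist (H (-s, N)) (H (s, N)) = 2 * s := by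
    have h3 := hH1 (-s, N) (s, N)
    rw [sub_self, zero_pow two_ne_zero, add_zero] at h3
    have h4 : (-s - s) ^ 2 = (2 * s) ^ 2 := by ring
    rw [h4] at h3
    exact (pow_left_inj₀ dist_nonneg (by positivity) two_ne_zero).1 h3
  set w := dist (H (-s, N)) m with hw
  have hw0 : 0 ≤ w := dist_nonneg
  have hw1 : dist m (H (s, N)) = 2 * s - w := by linarith
  have hw2 : w ≤ 2 * s := by
    have : 0 ≤ dist m (H (s, N)) := dist_nonneg
    linarith
  have hm : m = H (w - s, N) := by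
    refine (t_stew X hX).2.1 (H (-s, N)) (H (s, N)) w _ _ ⟨rfl, by rw [hpq]; exact hw1⟩ ⟨?_, ?_⟩
    · have h3 := hH1 (-s, N) (w - s, N)
      rw [sub_self, zero_pow two_ne_zero, add_zero] at h3
      have h4 : (-s - (w - s)) ^ 2 = w ^ 2 := by ring
      rw [h4] at h3
      exact (pow_left_inj₀ dist_nonneg hw0 two_ne_zero).1 h3
    · have h3 := hH1 (w - s, N) (s, N)
      rw [sub_self, zero_pow two_ne_zero, add_zero] at h3
      have h4 : (w - s - s) ^ 2 = (2 * s - w) ^ 2 := by ring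
      rw [h4] at h3
      rw [hpq]
      exact (pow_left_inj₀ dist_nonneg (by linarith) two_ne_zero).1 h3
  have h3 : h ≤ dist (H (w - s, N)) (H (0, 0)) := by
    have h4 := hH1 (w - s, N) (0, 0)
    rw [hN, NNReal.coe_zero, sub_zero] at h4
    have h5 : h ^ 2 ≤ dist (H (w - s, N)) (H (0, 0)) ^ 2 := by
      rw [h4]
      nlinarith [sq_nonneg (w - s - 0)]
    exact (abs_le_of_sq_le_sq' h5 dist_nonneg).2
  have h4 : dist (H (0, 0)) (σ 0) ≤ K := by
    rw [hH2]
    have := (hcl 0 le_rfl).1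
    rw [hf.1] at this
    simpa using this
  have h5 := dist_triangle (H (w - s, N)) (σ 0) (H (0, 0))
  rw [hm, dist_comm] at hm2
  rw [dist_comm (H (0, 0))] at h4
  have h6 := le_abs_self R
  linarith

variable {G : Type v} [Group G] [MulAction G X]

lemma hp_smul [IsIsometricSMul G X] {σ : ℝ → X} (g : G)
    (h : (HP fun t => g • σ t).Nonempty) : (HP σ).Nonempty := by
  obtain ⟨H, h1, h2⟩ := h
  refine ⟨fun z => g⁻¹ • H z, fun p q => ?_, fun t => ?_⟩
  · show dist (g⁻¹ • H p) (g⁻¹ • H q) ^ 2 = _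
    rw [dist_smul]
    exact h1 p q
  · show g⁻¹ • H (t, 0) = σ t
    rw [h2, inv_smul_smul]

lemma smul_isom [IsIsometricSMul G X] {σ : ℝ → X} (hσ : Isometry σ) (g : G) :
    Isometry (fun t => g • σ t) := (isometry_smul X g).comp hσ

lemma zz_inv [IsIsometricSMul G X] {o : X} {c c' : ℝ → X} (hc : c ∈ ZZ o) (g : G)
    (hc' : c' ∈ Bd o) (h : Asy c' (fun t => g • c t)) : c' ∈ ZZ o := by
  refine ⟨hc', fun σ hσ hσc => ?_⟩
  refine hp_smul g⁻¹ (hc.2 _ (smul_isom hσ g⁻¹) ?_)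
  have h1 := (hσc.trans h).smul g⁻¹
  simpa using h1

end Pool.Agent.N53.RO
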